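import Mathlib

/-!
# Translation invariant codes and quotients by a subgroup of prime power order
-/

namespace Q123.AC

open Module

/-- `C` is invariant under the translations of the group `G` -/
def Inv {F G V : Type*} [Field F] [AddCommGroup G] [AddCommGroup V] [Module F V]
    (C : Submodule F (G → V)) : Prop :=
  ∀ g : G, ∀ f ∈ C, (fun x => f (g + x)) ∈ C

/-- the code on the quotient -/
def pull {F X Y V : Type*} [Field F] [AddCommGroup V] [Module F V] (π : X → Y)
    (C : Submodule F (X → V)) : Submodule F (Y → V) :=
  C.comap (LinearMap.funLeft F V π)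

theorem mem_pull {F X Y V : Type*} [Field F] [AddCommGroup V] [Module F V] (π : X → Y)
    (C : Submodule F (X → V)) (g : Y → V) : g ∈ pull π C ↔ (fun x => g (π x)) ∈ C := Iff.rfl

theorem inv_pull {F X Y V : Type*} [Field F] [AddCommGroup V] [Module F V] [AddCommGroup X]
    [AddCommGroup Y] (π : X →+ Y)
    (hπ : Function.Surjective π) (C : Submodule F (X → V)) (hC : Inv C) : Inv (pull π C) := by
  intro g f hf
  obtain ⟨x, rfl⟩ := hπ g
  rw [mem_pull] at hf ⊢
  have := hC x _ hf
  simpa using this

section

variable {F X Y V : Type*} [Field F] [Finite F] [AddCommGroup X] [Finite X] [AddCommGroup Y]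
  [AddCommGroup V] [Module F V] [Finite V]

/-- the dimension drops at most by the factor `|ker π|` -/
theorem quot {p : ℕ} [hp : Fact p.Prime] [CharP F p] (π : X →+ Y) (hπ : Function.Surjective π)
    (hk : ∃ k, Nat.card π.ker = p ^ k) (C : Submodule F (X → V)) (hC : Inv C) :
    finrank F C ≤ Nat.card π.ker * finrank F (pull π C) := by
  classical
  have hYf : Finite Y := Finite.of_surjective π hπ
  set σ : Y → X := Function.surjInv hπ with hσ
  have hπσ : ∀ y, π (σ y) = y := fun y => Function.surjInv_eq hπ y
  obtain ⟨lam, hlam⟩ := LinearMap.exists_leftInverse_of_injective (pull π C).subtype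
    (Submodule.ker_subtype _)
  have hlam' : ∀ g : pull π C, lam g.1 = g := fun g => by
    have := congrArg (fun h => h g) hlam
    simpa using this
  -- the equivariant map
  let Φ : C →ₗ[F] (π.ker → pull π C) :=
    { toFun := fun f n => lam (fun y => f.1 (n.1 + σ y))
      map_add' := by
        intro f g
        funext n
        show lam (fun y => f.1 (n.1 + σ y) + g.1 (n.1 + σ y)) = _
        rw [show (fun y => f.1 (n.1 + σ y) + g.1 (n.1 + σ y)) =
          (fun y => f.1 (n.1 + σ y)) + (fun y => g.1 (n.1 + σ y)) from rfl, map_add]
        rfl
      map_smul' := by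
        intro c f
        funext n
        show lam (fun y => c • f.1 (n.1 + σ y)) = _
        rw [show (fun y => c • f.1 (n.1 + σ y)) = c • (fun y => f.1 (n.1 + σ y)) from rfl,
          map_smul]
        rfl }
  have hinj : Function.Injective Φ := by
    rw [← LinearMap.ker_eq_bot]
    by_contra hne
    -- the finite set on which the kernel acts
    let K : Submodule F C := LinearMap.ker Φ
    have hKfin : Finite K := inferInstance
    have hmemK : ∀ f : C, f ∈ K ↔ ∀ n : π.ker, lam (fun y => f.1 (n.1 + σ y)) = 0 := by
      intro f
      rw [LinearMap.mem_ker]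
      exact funext_iff
    let act : Multiplicative π.ker → K → K := fun n f =>
      ⟨⟨fun x => f.1.1 ((Multiplicative.toAdd n).1 + x), hC _ _ f.1.2⟩, by
        rw [hmemK]
        intro m
        have := (hmemK f.1).1 f.2 (Multiplicative.toAdd n + m)
        simpa [add_assoc] using this⟩
    let _inst : MulAction (Multiplicative π.ker) K :=
      { smul := act
        one_smul := by
          intro f
          apply Subtype.ext
          apply Subtype.ext
          funext x
          show f.1.1 (0 + x) = f.1.1 x
          rw [zero_add]
        mul_smul := by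
          intro a b f
          apply Subtype.ext
          apply Subtype.ext
          funext x
          show f.1.1 (((Multiplicative.toAdd a).1 + (Multiplicative.toAdd b).1) + x) =
            f.1.1 ((Multiplicative.toAdd b).1 + ((Multiplicative.toAdd a).1 + x))
          rw [add_comm (Multiplicative.toAdd a).1, add_assoc] }
    have hpg : IsPGroup p (Multiplicative π.ker) := by
      obtain ⟨k, hk⟩ := hk
      exact IsPGroup.of_card (n := k) (by rw [Nat.card_congr Multiplicative.toAdd]; exact hk)
    have hdvd : p ∣ Nat.card K := by
      have h1 : Nat.card K = Nat.card F ^ finrank F K := by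
        exact Module.natCard_eq_pow_finrank (K := F) (V := K)
      have h2 : 0 < finrank F K := by
        have : Nontrivial K := Submodule.nontrivial_iff_ne_bot.2 hne
        rw [Nat.pos_iff_ne_zero]
        intro h0
        have : Subsingleton K := Module.finrank_zero_iff.1 h0
        exact not_subsingleton K this
      rw [h1]
      have h3 : p ∣ Nat.card F := by
        have : Fintype F := Fintype.ofFinite F
        obtain ⟨n, -, hn⟩ := FiniteField.card F p
        rw [Nat.card_eq_fintype_card, hn]
        exact dvd_pow_self p n.ne_zero
      exact dvd_pow h3 h2.ne'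
    have h0 : (0 : K) ∈ MulAction.fixedPoints (Multiplicative π.ker) K := by
      intro n
      apply Subtype.ext
      apply Subtype.ext
      rfl
    obtain ⟨f, hf, hf0⟩ := hpg.exists_fixed_point_of_prime_dvd_card_of_fixed_point K hdvd h0
    have hfix : ∀ n : π.ker, ∀ x, f.1.1 (n.1 + x) = f.1.1 x := by
      intro n x
      have := hf (Multiplicative.ofAdd n)
      have h2 := congrArg (fun z : K => z.1.1 x) this
      exact h2
    let g : Y → V := fun y => f.1.1 (σ y)
    have hg : (fun x => g (π x)) = f.1.1 := by
      funext x
      show f.1.1 (σ (π x)) = f.1.1 x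
      have hm : σ (π x) - x ∈ π.ker := by
        rw [AddMonoidHom.mem_ker, map_sub, hπσ, sub_self]
      have := hfix ⟨_, hm⟩ x
      simpa using this
    have hgC : g ∈ pull π C := by
      rw [mem_pull, hg]
      exact f.1.2
    have h1 := (hmemK f.1).1 f.2 0
    have h2 : lam g = ⟨g, hgC⟩ := hlam' ⟨g, hgC⟩
    have h3 : lam g = 0 := by simpa using h1
    have h4 : g = 0 := by
      have := h2.symm.trans h3
      exact congrArg Subtype.val this
    apply hf0
    apply Subtype.ext
    apply Subtype.ext
    rw [← hg, h4]
    rfl
  have h1 := LinearMap.finrank_le_finrank_of_injective hinj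
  have : Fintype π.ker := Fintype.ofFinite _
  rwa [Module.finrank_pi_fintype, Finset.sum_const, Finset.card_univ, smul_eq_mul,
    ← Nat.card_eq_fintype_card] at h1

end

end Q123.AC
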