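import Mathlib

/-!
# Many shifts of a dense set contain a common cube
-/

namespace Q123.AC

open Finset

theorem pair {H : Type*} [Fintype H] [DecidableEq H] (ρ : ℝ) (N : ℕ) (hN2 : 2 ≤ N)
    (hN : 2 ≤ N * ρ) (A : Fin N → Finset H) (hA : ∀ i, ρ * Fintype.card H ≤ (A i).card) :
    ∃ i j, i ≠ j ∧ Fintype.card H ≤ N ^ 2 * (A i ∩ A j).card := by
  classical
  by_contra hcon
  push Not at hcon
  have e1 : ∑ i, (A i).card = ∑ x : H, (univ.filter (fun i => x ∈ A i)).card := by
    have : ∀ i, (A i).card = ∑ x : H, if x ∈ A i then 1 else 0 := fun i => by simp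
    rw [sum_congr rfl (fun i _ => this i), sum_comm]
    refine sum_congr rfl (fun x _ => ?_)
    rw [card_filter]
  have e2 : ∑ q ∈ (univ : Finset (Fin N)).offDiag, (A q.1 ∩ A q.2).card =
      ∑ x : H, ((univ.filter (fun i => x ∈ A i)).offDiag).card := by
    have : ∀ q : Fin N × Fin N, (A q.1 ∩ A q.2).card =
        ∑ x : H, if x ∈ A q.1 ∩ A q.2 then 1 else 0 := fun q => by
      rw [← card_filter]
      congr 1
      ext x
      rw [mem_filter]
      exact ⟨fun h => ⟨mem_univ _, h⟩, fun h => h.2⟩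
    rw [sum_congr rfl (fun i _ => this i), sum_comm]
    refine sum_congr rfl (fun x _ => ?_)
    rw [← card_filter]
    congr 1
    ext q
    simp only [mem_filter, mem_offDiag, mem_univ, true_and, mem_inter]
    tauto
  have h1 : ∑ i, (A i).card ≤ Fintype.card H +
      ∑ q ∈ (univ : Finset (Fin N)).offDiag, (A q.1 ∩ A q.2).card := by
    rw [e1, e2, ← card_univ, card_eq_sum_ones, ← sum_add_distrib]
    refine sum_le_sum (fun x _ => ?_)
    rw [offDiag_card]
    set d := (univ.filter (fun i => x ∈ A i)).card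
    rcases Nat.eq_zero_or_pos d with h | h
    · rw [h]
      omega
    · have : d * d = d * (d - 1) + d := by
        obtain ⟨m, hm⟩ : ∃ m, d = m + 1 := ⟨d - 1, by omega⟩
        rw [hm, Nat.add_sub_cancel]
        ring
      rw [this, Nat.add_sub_cancel]
      have h2 : 1 * (d - 1) ≤ d * (d - 1) := Nat.mul_le_mul_right _ h
      omega
  have h2 : (N : ℝ) * (ρ * Fintype.card H) ≤ ((∑ i, (A i).card : ℕ) : ℝ) := by
    push_cast
    calc (N : ℝ) * (ρ * Fintype.card H) = ∑ _i : Fin N, ρ * Fintype.card H := by simp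
      _ ≤ _ := sum_le_sum (fun i _ => hA i)
  have h3 : Fintype.card H ≤ ∑ q ∈ (univ : Finset (Fin N)).offDiag, (A q.1 ∩ A q.2).card := by
    have h4 : (2 : ℝ) * Fintype.card H ≤ ((Fintype.card H +
      ∑ q ∈ (univ : Finset (Fin N)).offDiag, (A q.1 ∩ A q.2).card : ℕ) : ℝ) := by
      calc (2 : ℝ) * Fintype.card H ≤ (N * ρ) * Fintype.card H :=
            mul_le_mul_of_nonneg_right hN (Nat.cast_nonneg _)
        _ = (N : ℝ) * (ρ * Fintype.card H) := by ring
        _ ≤ _ := h2
        _ ≤ _ := by exact_mod_cast h1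
    have h5 : 2 * Fintype.card H ≤ Fintype.card H +
      ∑ q ∈ (univ : Finset (Fin N)).offDiag, (A q.1 ∩ A q.2).card := by exact_mod_cast h4
    omega
  have hne : ((univ : Finset (Fin N)).offDiag).Nonempty := by
    refine ⟨(⟨0, by omega⟩, ⟨1, by omega⟩), ?_⟩
    rw [mem_offDiag]
    refine ⟨mem_univ _, mem_univ _, ?_⟩
    intro h
    have := congrArg Fin.val h
    simp at this
  have h6 : N ^ 2 * ∑ q ∈ (univ : Finset (Fin N)).offDiag, (A q.1 ∩ A q.2).card <
      N ^ 2 * Fintype.card H := by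
    rw [mul_sum]
    calc ∑ q ∈ (univ : Finset (Fin N)).offDiag, N ^ 2 * (A q.1 ∩ A q.2).card
        < ∑ _q ∈ (univ : Finset (Fin N)).offDiag, Fintype.card H :=
          sum_lt_sum_of_nonempty hne (fun q hq => hcon q.1 q.2 (mem_offDiag.1 hq).2.2)
      _ = ((univ : Finset (Fin N)).offDiag).card * Fintype.card H := by
          rw [sum_const, smul_eq_mul]
      _ ≤ N ^ 2 * Fintype.card H := by
          apply Nat.mul_le_mul_right
          rw [offDiag_card, card_univ, Fintype.card_fin, pow_two]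
          omega
  have h7 := Nat.lt_of_mul_lt_mul_left h6
  omega

theorem iter (K : ℕ) : ∀ ρ : ℝ, 0 < ρ → ∃ N : ℕ, ∀ (H : Type) [CommGroup H] [Fintype H]
    (η : Fin K × Fin N → H) (S : Finset H), ρ * Fintype.card H ≤ S.card →
    ∃ a b : Fin K → Fin N, (∀ j, a j ≠ b j) ∧ ∃ χ : H, ∀ s : Fin K → Bool,
      χ * ∏ j, η (j, if s j then a j else b j) ∈ S := by
  classical
  induction K with
  | zero =>
    intro ρ hρ
    refine ⟨0, fun H _ _ η S hS => ⟨Fin.elim0, Fin.elim0, fun j => j.elim0, ?_⟩⟩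
    have h1 : (0 : ℝ) < Fintype.card H := by exact_mod_cast Fintype.card_pos
    have h2 : (0 : ℝ) < S.card := lt_of_lt_of_le (mul_pos hρ h1) hS
    have h3 : S.Nonempty := by
      rw [← card_pos]
      exact_mod_cast h2
    obtain ⟨χ, hχ⟩ := h3
    exact ⟨χ, fun s => by simpa using hχ⟩
  | succ K ih =>
    intro ρ hρ
    obtain ⟨N1, hN1, hN1'⟩ : ∃ N1 : ℕ, 2 ≤ N1 ∧ 2 ≤ N1 * ρ := by
      obtain ⟨N, hN⟩ := exists_nat_ge (2 / ρ)
      refine ⟨N + 2, by omega, ?_⟩
      rw [div_le_iff₀ hρ] at hN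
      push_cast
      nlinarith
    have hN1pos : (0 : ℝ) < (N1 : ℝ) ^ 2 := by
      have : (0 : ℝ) < N1 := by exact_mod_cast (by omega : 0 < N1)
      positivity
    obtain ⟨N2, hN2⟩ := ih (1 / (N1 : ℝ) ^ 2) (by positivity)
    obtain ⟨N, hN⟩ : ∃ N, N = N1 + N2 := ⟨_, rfl⟩
    have hle1 : N1 ≤ N := by omega
    have hle2 : N2 ≤ N := by omega
    refine ⟨N, fun H _ _ η S hS => ?_⟩
    let A : Fin N1 → Finset H := fun i =>
      univ.filter (fun χ => η (0, Fin.castLE hle1 i) * χ ∈ S)
    have hA : ∀ i, (A i).card = S.card := by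
      intro i
      apply card_bij (fun χ _ => η (0, Fin.castLE hle1 i) * χ)
      · intro χ hχ
        exact (mem_filter.1 hχ).2
      · intro χ _ χ' _ h
        exact mul_left_cancel h
      · intro χ hχ
        refine ⟨(η (0, Fin.castLE hle1 i))⁻¹ * χ, ?_, by rw [mul_inv_cancel_left]⟩
        rw [mem_filter, mul_inv_cancel_left]
        exact ⟨mem_univ _, hχ⟩
    obtain ⟨i, i', hii, hcard⟩ := pair ρ N1 hN1 hN1' A (fun i => by rw [hA i]; exact hS)
    obtain ⟨a, b, hab, χ, hχ⟩ := hN2 H (fun k => η (k.1.succ, Fin.castLE hle2 k.2)) (A i ∩ A i') (by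
      rw [one_div, inv_mul_le_iff₀ hN1pos]
      exact_mod_cast hcard)
    refine ⟨Fin.cons (Fin.castLE hle1 i) (fun j => Fin.castLE hle2 (a j)),
      Fin.cons (Fin.castLE hle1 i') (fun j => Fin.castLE hle2 (b j)), ?_, χ, ?_⟩
    · intro j
      refine Fin.cases ?_ (fun j => ?_) j
      · simpa using hii
      · simp only [Fin.cons_succ]
        intro h
        exact hab j (Fin.castLE_injective hle2 h)
    · intro s
      rw [Fin.prod_univ_succ]
      simp only [Fin.cons_zero, Fin.cons_succ]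
      have h1 := hχ (fun j => s j.succ)
      have h2 : ∀ j : Fin K, (if s j.succ then Fin.castLE hle2 (a j) else Fin.castLE hle2 (b j)) =
          Fin.castLE hle2 (if s j.succ then a j else b j) := by
        intro j
        split_ifs <;> rfl
      simp only [h2]
      rw [mem_inter, mem_filter, mem_filter] at h1
      rw [mul_left_comm]
      split_ifs
      · exact h1.1.2
      · exact h1.2.2

end Q123.AC
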