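import Mathlib
import Pool.Agent.Q123.AC.Base
import Pool.Agent.Q123.AC.Iter

/-!
# Codes invariant under a group with a large `ℓ`-rank, `ℓ` different from the characteristic
-/

namespace Q123.AC

open Finset Module

/-- the values of a character -/
def ev {X E : Type*} [AddCommGroup X] [Field E] (χ : Multiplicative X →* Eˣ) (x : X) : E :=
  ((χ (Multiplicative.ofAdd x) : Eˣ) : E)

theorem ev_add {X E : Type*} [AddCommGroup X] [Field E] (χ : Multiplicative X →* Eˣ) (x y : X) :
    ev χ (x + y) = ev χ x * ev χ y := by
  rw [ev, ofAdd_add, map_mul, Units.val_mul]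
  rfl

theorem ev_mul {X E : Type*} [AddCommGroup X] [Field E] (χ ψ : Multiplicative X →* Eˣ) (x : X) :
    ev (χ * ψ) x = ev χ x * ev ψ x := by
  rw [ev, MonoidHom.mul_apply, Units.val_mul]
  rfl

theorem ev_ne {X E : Type*} [AddCommGroup X] [Field E] (χ : Multiplicative X →* Eˣ) (x : X) :
    ev χ x ≠ 0 := Units.ne_zero _

theorem ev_prod {X E ι : Type*} [AddCommGroup X] [Field E] (s : Finset ι)
    (χ : ι → Multiplicative X →* Eˣ) (x : X) :
    ev (∏ i ∈ s, χ i) x = ∏ i ∈ s, ev (χ i) x := by
  rw [ev, MonoidHom.finsetProd_apply, Units.coe_prod]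
  rfl

section

variable (X E : Type) [AddCommGroup X] [Finite X] [Field E]
  [HasEnoughRootsOfUnity E (Monoid.exponent (Multiplicative X))]

theorem card_ch : Nat.card (Multiplicative X →* Eˣ) = Nat.card X :=
  CommGroup.card_monoidHom_of_hasEnoughRootsOfUnity (Multiplicative X) E

theorem fin_ch : Finite (Multiplicative X →* Eˣ) := by
  apply Nat.finite_of_card_ne_zero
  rw [card_ch]
  exact Nat.card_pos.ne'

theorem span_ev : Submodule.span E (Set.range (fun χ : Multiplicative X →* Eˣ => ev χ)) = ⊤ := by
  classical
  have : Finite (Multiplicative X →* Eˣ) := fin_ch X E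
  have hf : Fintype (Multiplicative X →* Eˣ) := Fintype.ofFinite _
  have hX : Fintype X := Fintype.ofFinite _
  apply LinearIndependent.span_eq_top_of_card_eq_finrank'
  · have h1 := linearIndependent_monoidHom (Multiplicative X) E
    have h2 : Function.Injective (fun χ : Multiplicative X →* Eˣ => (Units.coeHom E).comp χ) := by
      intro χ ψ h
      ext x
      exact congrArg (fun f : Multiplicative X →* E => f x) h
    exact h1.comp _ h2
  · rw [Module.finrank_fintype_fun_eq_card, ← Nat.card_eq_fintype_card, ← Nat.card_eq_fintype_card,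
      card_ch]

end

/-- the Fourier coefficient -/
noncomputable def hat {F E X T : Type} [Field F] [Field E] [Algebra F E] [AddCommGroup X]
    [Fintype X] (f : X → T → F) (χ : Multiplicative X →* Eˣ) : T → E :=
  fun t => ∑ h : X, ev χ (-h) * algebraMap F E (f h t)

theorem hat_inj {F E X T : Type} [Field F] [Field E] [Algebra F E] [AddCommGroup X]
    [Fintype X] [HasEnoughRootsOfUnity E (Monoid.exponent (Multiplicative X))]
    (f : X → T → F) (hf : ∀ χ : Multiplicative X →* Eˣ, hat f χ = 0) : f = 0 := by
  classical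
  have h1 : ∀ t, ∀ g : X → E, ∑ h : X, g h * algebraMap F E (f h t) = 0 := by
    intro t g
    have hg : g ∈ Submodule.span E (Set.range (fun χ : Multiplicative X →* Eˣ => ev χ)) := by
      rw [span_ev]
      exact Submodule.mem_top
    induction hg using Submodule.span_induction with
    | mem g hg =>
      obtain ⟨χ, rfl⟩ := hg
      have h2 := congrFun (hf χ⁻¹) t
      rw [hat] at h2
      have h3 : ∀ h : X, ev χ⁻¹ (-h) = ev χ h := by
        intro h
        rw [ev, ev, ofAdd_neg, MonoidHom.inv_apply, map_inv, inv_inv]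
      simp only [h3] at h2
      exact h2
    | zero => simp
    | add g g' _ _ h2 h3 =>
      simp only [Pi.add_apply, add_mul, sum_add_distrib]
      rw [h2, h3, add_zero]
    | smul c g _ h2 =>
      simp only [Pi.smul_apply, smul_eq_mul, mul_assoc]
      rw [← mul_sum, h2, mul_zero]
  funext x t
  have h2 := h1 t (fun h => if h = x then 1 else 0)
  rw [sum_eq_single x (fun h _ hx => by rw [if_neg hx, zero_mul])
    (fun h => absurd (mem_univ _) h), if_pos rfl, one_mul] at h2
  exact (map_eq_zero (algebraMap F E)).1 h2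

/-- the words over the larger field whose coordinates lie in the code -/
def Dm {F E X T : Type} [Field F] [Field E] [Algebra F E] (C : Submodule F (X → T → F)) :
    Submodule E (X → T → E) where
  carrier := {w | ∀ lam : E →ₗ[F] F, (fun x t => lam (w x t)) ∈ C}
  add_mem' := by
    intro v w hv hw lam
    have := C.add_mem (hv lam) (hw lam)
    have e : (fun x t => lam ((v + w) x t)) = (fun x t => lam (v x t)) +
        (fun x t => lam (w x t)) := by
      funext x t
      exact map_add lam _ _
    rw [e]
    exact this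
  zero_mem' := by
    intro lam
    have e : (fun (x : X) (t : T) => lam ((0 : X → T → E) x t)) = 0 := by
      funext x t
      exact map_zero lam
    rw [e]
    exact C.zero_mem
  smul_mem' := by
    intro c w hw lam
    exact hw (lam.comp (LinearMap.mulLeft F c))

theorem mem_Dm {F E X T : Type} [Field F] [Field E] [Algebra F E] (C : Submodule F (X → T → F))
    (w : X → T → E) : w ∈ Dm (E := E) C ↔ ∀ lam : E →ₗ[F] F, (fun x t => lam (w x t)) ∈ C := Iff.rfl

theorem descent {F E X T : Type} [Field F] [Field E] [Algebra F E] (C : Submodule F (X → T → F))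
    (w : X → T → E) (hw : w ∈ Dm (E := E) C) (hne : w ≠ 0) :
    ∃ f ∈ C, f ≠ 0 ∧ ∀ x, w x = 0 → f x = 0 := by
  obtain ⟨x, t, hxt⟩ : ∃ x t, w x t ≠ 0 := by
    by_contra h
    push Not at h
    exact hne (by funext x t; exact h x t)
  obtain ⟨lam, hlam⟩ : ∃ lam : E →ₗ[F] F, lam (w x t) ≠ 0 := by
    by_contra h
    push Not at h
    exact hxt ((Module.forall_dual_apply_eq_zero_iff F _).1 h)
  refine ⟨_, hw lam, ?_, ?_⟩
  · intro h
    exact hlam (congrFun (congrFun h x) t)
  · intro x hx
    funext t
    show lam (w x t) = 0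
    rw [hx]
    exact map_zero lam

theorem hat_mem {F E X T : Type} [Field F] [Field E] [Algebra F E] [AddCommGroup X]
    [Fintype X] (C : Submodule F (X → T → F)) (hC : Inv C) (f : X → T → F) (hf : f ∈ C)
    (χ : Multiplicative X →* Eˣ) : (fun x t => ev χ x * hat f χ t) ∈ Dm (E := E) C := by
  classical
  rw [mem_Dm]
  intro lam
  have e : (fun x t => lam (ev χ x * hat f χ t)) =
      ∑ g : X, lam (ev χ (-g)) • (fun x => f (g + x)) := by
    funext x t
    rw [Finset.sum_apply, Finset.sum_apply]
    rw [hat, mul_sum]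
    rw [← Equiv.sum_comp (Equiv.addRight x)]
    rw [map_sum]
    refine sum_congr rfl (fun g _ => ?_)
    show lam (ev χ x * (ev χ (-(g + x)) * algebraMap F E (f (g + x) t))) =
      lam (ev χ (-g)) * f (g + x) t
    rw [← mul_assoc, ← ev_add, mul_comm _ (algebraMap F E _), ← Algebra.smul_def, map_smul,
      smul_eq_mul, mul_comm]
    congr 3
    abel
  rw [e]
  exact C.sum_mem (fun g _ => C.smul_mem _ (hC g f hf))

end Q123.AC
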