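import Mathlib

/-!
# Counting the points where disjoint pairs of coordinates differ
-/

namespace Q123.AC

open Finset

variable {X : Type*} [AddCommGroup X] {ℓ : ℕ} [NeZero ℓ]

/-- if `A` is stable under the translation by `z` and `θ z = 1`, then `θ` is equidistributed
on `A` -/
theorem equi (A : Finset X) (z : X) (hA : ∀ x, x ∈ A ↔ z + x ∈ A) (θ : X →+ ZMod ℓ)
    (hθ : θ z = 1) : ℓ * (A.filter (fun x => θ x ≠ 0)).card = (ℓ - 1) * A.card := by
  classical
  set N : ZMod ℓ → ℕ := fun c => (A.filter (fun x => θ x = c)).card with hN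
  have h1 : ∀ c, N (c + 1) = N c := by
    intro c
    symm
    apply card_bij (fun x _ => z + x)
    · intro x hx
      rw [mem_filter] at hx ⊢
      refine ⟨(hA x).1 hx.1, ?_⟩
      rw [map_add, hθ, hx.2, add_comm]
    · intro x _ y _ h
      exact add_left_cancel h
    · intro y hy
      rw [mem_filter] at hy
      refine ⟨-z + y, ?_, by abel⟩
      rw [mem_filter]
      refine ⟨(hA _).2 (by simpa using hy.1), ?_⟩
      rw [map_add, map_neg, hθ, hy.2]
      abel
  have h2 : ∀ n : ℕ, N (n : ZMod ℓ) = N 0 := by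
    intro n
    induction n with
    | zero => simp
    | succ n ih => rw [Nat.cast_succ, h1, ih]
  have h3 : ∀ c, N c = N 0 := by
    intro c
    have := h2 c.val
    rwa [ZMod.natCast_zmod_val] at this
  have h4 : A.card = ℓ * N 0 := by
    have := card_eq_sum_card_fiberwise (s := A) (t := (univ : Finset (ZMod ℓ)))
      (f := fun x => θ x) (fun x _ => mem_univ _)
    rw [this]
    rw [sum_congr rfl (fun c _ => h3 c), sum_const, card_univ, ZMod.card, smul_eq_mul]
  have h5 : (A.filter (fun x => θ x ≠ 0)).card + N 0 = A.card := by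
    rw [hN]
    rw [add_comm]
    exact card_filter_add_card_filter_not (s := A) (fun x => θ x = 0)
  have hℓ : 1 ≤ ℓ := NeZero.one_le
  obtain ⟨m, rfl⟩ : ∃ m, ℓ = m + 1 := ⟨ℓ - 1, by omega⟩
  rw [Nat.add_sub_cancel]
  have h6 : (A.filter (fun x => θ x ≠ 0)).card = m * N 0 := by
    have : (m + 1) * N 0 = m * N 0 + N 0 := by ring
    omega
  rw [h6, h4]
  ring

variable [Fintype X] {ι : Type*} (φ : ι → X →+ ZMod ℓ) (z : ι → X)

/-- the points where the first `K` pairs of coordinates differ -/
theorem count [DecidableEq ι] (hz : ∀ i j, φ i (z j) = if i = j then 1 else 0) (a b : ℕ → ι)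
    (K : ℕ) (hinj : ∀ i < K, ∀ j < K, a i = a j → i = j) (hab : ∀ i < K, ∀ j < K, a i ≠ b j) :
    ℓ ^ K * (univ.filter (fun x : X => ∀ j < K, φ (a j) x ≠ φ (b j) x)).card =
      (ℓ - 1) ^ K * Fintype.card X := by
  classical
  induction K with
  | zero => simp
  | succ K ih =>
    have ih' := ih (fun i hi j hj => hinj i (by omega) j (by omega))
      (fun i hi j hj => hab i (by omega) j (by omega))
    set A : Finset X := univ.filter (fun x : X => ∀ j < K, φ (a j) x ≠ φ (b j) x) with hAdef
    have hA : ∀ x, x ∈ A ↔ z (a K) + x ∈ A := by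
      intro x
      rw [hAdef, mem_filter, mem_filter]
      simp only [mem_univ, true_and]
      apply forall_congr'
      intro j
      apply forall_congr'
      intro hj
      rw [map_add, map_add, hz, hz, if_neg (fun h => by
        have := hinj j (by omega) K (by omega) h; omega),
        if_neg (fun h => hab K (by omega) j (by omega) h.symm)]
      simp
    have h1 := equi A (z (a K)) hA (φ (a K) - φ (b K)) (by
      rw [AddMonoidHom.sub_apply, hz, hz, if_pos rfl,
        if_neg (fun h => hab K (by omega) K (by omega) h.symm), sub_zero])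
    have h2 : (univ.filter (fun x : X => ∀ j < K + 1, φ (a j) x ≠ φ (b j) x)) =
        A.filter (fun x => (φ (a K) - φ (b K)) x ≠ 0) := by
      ext x
      rw [hAdef, mem_filter, mem_filter, mem_filter]
      simp only [mem_univ, true_and, AddMonoidHom.sub_apply, ne_eq, sub_eq_zero]
      constructor
      · intro h
        exact ⟨fun j hj => h j (by omega), h K (by omega)⟩
      · rintro ⟨h, h'⟩ j hj
        rcases Nat.lt_succ_iff_lt_or_eq.1 hj with hj | rfl
        · exact h j hj
        · exact h'
    rw [h2, pow_succ, pow_succ, mul_assoc, h1, mul_left_comm, ih']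
    ring

/-- the same in real numbers -/
theorem count_real [DecidableEq ι] (hz : ∀ i j, φ i (z j) = if i = j then 1 else 0)
    (a b : ℕ → ι) (K : ℕ) (hinj : ∀ i < K, ∀ j < K, a i = a j → i = j)
    (hab : ∀ i < K, ∀ j < K, a i ≠ b j) :
    ((univ.filter (fun x : X => ∀ j < K, φ (a j) x ≠ φ (b j) x)).card : ℝ) =
      (1 - 1 / (ℓ : ℝ)) ^ K * Fintype.card X := by
  have h := count φ z hz a b K hinj hab
  have hℓ : (0 : ℝ) < ℓ := by exact_mod_cast NeZero.pos ℓ
  have h' : (ℓ : ℝ) ^ K * ((univ.filter (fun x : X => ∀ j < K, φ (a j) x ≠ φ (b j) x)).card : ℝ) =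
      ((ℓ : ℝ) - 1) ^ K * Fintype.card X := by
    have h1 : ((ℓ - 1 : ℕ) : ℝ) = (ℓ : ℝ) - 1 := by
      rw [Nat.cast_sub NeZero.one_le, Nat.cast_one]
    rw [← h1]
    exact_mod_cast h
  have h2 : (1 - 1 / (ℓ : ℝ)) = ((ℓ : ℝ) - 1) / ℓ := by
    field_simp
  rw [h2, div_pow, div_mul_eq_mul_div, eq_div_iff (by positivity), ← h']
  ring

/-- the same with pairs indexed by `Fin K` -/
theorem count_fin [DecidableEq ι] (hz : ∀ i j, φ i (z j) = if i = j then 1 else 0) (K : ℕ)
    (a b : Fin K → ι) (hinj : Function.Injective a) (hab : ∀ i j, a i ≠ b j) :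
    ((univ.filter (fun x : X => ∀ j, φ (a j) x ≠ φ (b j) x)).card : ℝ) =
      (1 - 1 / (ℓ : ℝ)) ^ K * Fintype.card X := by
  rcases Nat.eq_zero_or_pos K with rfl | hK
  · simp
  set a' : ℕ → ι := fun j => if h : j < K then a ⟨j, h⟩ else a ⟨0, hK⟩ with ha'
  set b' : ℕ → ι := fun j => if h : j < K then b ⟨j, h⟩ else b ⟨0, hK⟩ with hb'
  have ea : ∀ j (h : j < K), a' j = a ⟨j, h⟩ := fun j h => by rw [ha']; exact dif_pos h
  have eb : ∀ j (h : j < K), b' j = b ⟨j, h⟩ := fun j h => by rw [hb']; exact dif_pos h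
  rw [← count_real φ z hz a' b' K (fun i hi j hj h => by
      rw [ea i hi, ea j hj] at h
      exact Fin.mk.inj_iff.1 (hinj h))
    (fun i hi j hj => by rw [ea i hi, eb j hj]; exact hab _ _)]
  congr 2
  ext x
  rw [mem_filter, mem_filter]
  refine and_congr_right fun _ => ⟨fun h j hj => ?_, fun h j => ?_⟩
  · rw [ea j hj, eb j hj]
    exact h _
  · have := h j.1 j.2
    rwa [ea j.1 j.2, eb j.1 j.2] at this

/-- an alternating sum over all sets which does not see one of the elements vanishes -/
theorem alt_sum {K : ℕ} {F V : Type*} [Field F] [AddCommGroup V] [Module F V]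
    (h : Finset (Fin K) → V) (j : Fin K) (hj : ∀ S, j ∉ S → h (insert j S) = h S) :
    ∑ S : Finset (Fin K), (-1 : F) ^ S.card • h S = 0 := by
  classical
  have key : ∑ S : Finset (Fin K), (-1 : F) ^ S.card • h S =
      ∑ S ∈ univ.filter (fun S : Finset (Fin K) => j ∉ S),
        ((-1 : F) ^ S.card • h S + (-1 : F) ^ (insert j S).card • h (insert j S)) := by
    rw [sum_add_distrib]
    rw [← sum_filter_add_sum_filter_not univ (fun S : Finset (Fin K) => j ∉ S)]
    congr 1
    symm
    apply sum_bij (fun S _ => insert j S)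
    · intro S hS
      rw [mem_filter] at hS ⊢
      simp
    · intro S hS T hT h
      rw [mem_filter] at hS hT
      have := congrArg (fun U => U.erase j) h
      simpa [erase_insert hS.2, erase_insert hT.2] using this
    · intro S hS
      rw [mem_filter] at hS
      refine ⟨S.erase j, by rw [mem_filter]; simp, ?_⟩
      exact insert_erase (by simpa using hS.2)
    · intro S _
      rfl
  rw [key]
  apply sum_eq_zero
  intro S hS
  rw [mem_filter] at hS
  rw [hj S hS.2, card_insert_of_notMem hS.2, pow_succ, mul_neg_one, neg_smul, add_neg_cancel]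

end Q123.AC
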