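import Mathlib

/-!
# A box with corners of one colour
-/

namespace Q123.AC

open Finset

theorem box_fin (n c : ℕ) : ∃ L : ℕ, ∀ (Γ : Type) [Finite Γ], Nat.card Γ ≤ c →
    ∀ col : (Fin n → Fin L) → Γ, ∃ a b : Fin n → Fin L, (∀ i, a i ≠ b i) ∧
      ∀ s : Fin n → Bool, col (fun i => if s i then a i else b i) = col b := by
  classical
  induction n with
  | zero =>
    refine ⟨0, fun Γ _ _ col => ⟨Fin.elim0, Fin.elim0, fun i => i.elim0, fun s => ?_⟩⟩
    congr 1
    funext i
    exact i.elim0
  | succ n ih =>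
    obtain ⟨L₀, hL₀⟩ := ih
    obtain ⟨L, hL⟩ : ∃ L, L = L₀ + (c ^ (L₀ ^ n) + 1) := ⟨_, rfl⟩
    refine ⟨L, fun Γ _ hΓ col => ?_⟩
    have hle : L₀ ≤ L := by omega
    let col' : Fin L → ((Fin n → Fin L₀) → Γ) := fun t v =>
      col (Fin.cons t (fun i => Fin.castLE hle (v i)))
    have hni : ¬ Function.Injective col' := by
      intro hinj
      have h1 := Nat.card_le_card_of_injective col' hinj
      rw [Nat.card_fun, Nat.card_fun, Nat.card_fin, Nat.card_fin, Nat.card_fin] at h1
      have h2 : Nat.card Γ ^ (L₀ ^ n) ≤ c ^ (L₀ ^ n) := Nat.pow_le_pow_left hΓ _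
      omega
    obtain ⟨t0, t1, ht, hne⟩ : ∃ t0 t1, col' t0 = col' t1 ∧ t0 ≠ t1 := by
      by_contra hcon
      push Not at hcon
      exact hni (fun x y h => hcon x y h)
    obtain ⟨a', b', hab, hs⟩ := hL₀ Γ hΓ (col' t0)
    refine ⟨Fin.cons t0 (fun i => Fin.castLE hle (a' i)),
      Fin.cons t1 (fun i => Fin.castLE hle (b' i)), ?_, ?_⟩
    · intro i
      refine Fin.cases ?_ (fun i => ?_) i
      · simpa using hne
      · simp only [Fin.cons_succ]
        intro h
        exact hab i (Fin.castLE_injective hle h)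
    · intro s
      have e1 : (fun i => if s i then (Fin.cons t0 (fun i => Fin.castLE hle (a' i)) :
          Fin (n + 1) → Fin L) i else (Fin.cons t1 (fun i => Fin.castLE hle (b' i)) :
          Fin (n + 1) → Fin L) i) =
          Fin.cons (if s 0 then t0 else t1)
            (fun i => Fin.castLE hle (if s i.succ then a' i else b' i)) := by
        funext i
        refine Fin.cases ?_ (fun i => ?_) i
        · simp
        · simp only [Fin.cons_succ]
          split_ifs <;> rfl
      rw [e1]
      have e2 : ∀ t, col (Fin.cons t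
          (fun i => Fin.castLE hle (if s i.succ then a' i else b' i))) =
          col' t (fun i => if s i.succ then a' i else b' i) := fun t => rfl
      rw [e2]
      have e3 : col' (if s 0 then t0 else t1) = col' t0 := by
        split_ifs
        · rfl
        · exact ht.symm
      rw [e3, hs (fun i => s i.succ)]
      show col' t0 b' = col' t1 b'
      rw [ht]

/-- the same for an arbitrary finite set of coordinates -/
theorem box (κ : Type) [Finite κ] (c : ℕ) : ∃ L : ℕ, ∀ (Γ : Type) [Finite Γ], Nat.card Γ ≤ c →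
    ∀ col : (κ → Fin L) → Γ, ∃ a b : κ → Fin L, (∀ i, a i ≠ b i) ∧
      ∀ s : κ → Bool, col (fun i => if s i then a i else b i) = col b := by
  classical
  obtain ⟨L, hL⟩ := box_fin (Nat.card κ) c
  refine ⟨L, fun Γ _ hΓ col => ?_⟩
  let e : κ ≃ Fin (Nat.card κ) := Finite.equivFin κ
  obtain ⟨a, b, hab, hs⟩ := hL Γ hΓ (fun v => col (fun i => v (e i)))
  refine ⟨fun i => a (e i), fun i => b (e i), fun i => hab _, fun s => ?_⟩
  have := hs (fun j => s (e.symm j))
  simpa using this

end Q123.AC
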