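import Mathlib

/-!
# Functions of many variables which are not sums of functions of few variables
-/

namespace Q123.AC

open Finset Module

variable {K m p : ℕ} [NeZero p]

/-- put the coordinates `(j, τ j)`, `j ∈ S`, to zero -/
def zr (S : Finset (Fin K)) (τ : Fin K → Fin m) (v : Fin K × Fin m → ZMod p) :
    Fin K × Fin m → ZMod p := fun k => if k.1 ∈ S ∧ k.2 = τ k.1 then 0 else v k

/-- the points which vanish on one of the blocks -/
def Zb (K m p : ℕ) [NeZero p] : Finset (Fin K × Fin m → ZMod p) :=
  univ.filter (fun v => ∃ j, ∀ t, v (j, t) = 0)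

theorem card_Zb : (Zb K m p).card ≤ K * p ^ ((K - 1) * m) := by
  classical
  have h1 : Zb K m p ⊆ (univ : Finset (Fin K)).biUnion
      (fun j => univ.filter (fun v : Fin K × Fin m → ZMod p => ∀ t, v (j, t) = 0)) := by
    intro v hv
    rw [Zb, mem_filter] at hv
    obtain ⟨j, hj⟩ := hv.2
    rw [mem_biUnion]
    exact ⟨j, mem_univ _, by rw [mem_filter]; exact ⟨mem_univ _, hj⟩⟩
  refine (card_le_card h1).trans (card_biUnion_le.trans ?_)
  have h2 : ∀ j : Fin K, (univ.filter (fun v : Fin K × Fin m → ZMod p => ∀ t, v (j, t) = 0)).card
      ≤ p ^ ((K - 1) * m) := by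
    intro j
    have hc : Fintype.card ({i : Fin K // i ≠ j} × Fin m → ZMod p) = p ^ ((K - 1) * m) := by
      rw [Fintype.card_fun, ZMod.card, Fintype.card_prod, Fintype.card_fin,
        Fintype.card_subtype_compl, Fintype.card_fin, Fintype.card_subtype_eq]
    rw [← hc, ← card_univ]
    apply card_le_card_of_injOn (fun v => fun k : {i : Fin K // i ≠ j} × Fin m => v (k.1.1, k.2))
    · intro v _
      exact mem_coe.2 (mem_univ _)
    · intro v hv w hw h
      rw [mem_coe, mem_filter] at hv hw
      funext k
      obtain ⟨i, t⟩ := k
      by_cases hi : i = j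
      · subst hi
        rw [hv.2 t, hw.2 t]
      · exact congrFun h (⟨i, hi⟩, t)
  calc ∑ j : Fin K, (univ.filter (fun v : Fin K × Fin m → ZMod p => ∀ t, v (j, t) = 0)).card
      ≤ ∑ _j : Fin K, p ^ ((K - 1) * m) := sum_le_sum (fun j _ => h2 j)
    _ = K * p ^ ((K - 1) * m) := by simp

/-- a space of functions which is larger than the number of the points vanishing on a block
contains a function with a nonzero mixed difference -/
theorem deg {F Y V : Type*} [Field F] [Finite Y] [AddCommGroup V] [Module F V]
    [Module.Finite F V] (W : Submodule F (((Fin K × Fin m → ZMod p) × Y) → V))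
    (hW : (Zb K m p).card * Nat.card Y * finrank F V < finrank F W) :
    ∃ g ∈ W, ∃ (τ : Fin K → Fin m) (v : Fin K × Fin m → ZMod p) (y : Y),
      ∑ S : Finset (Fin K), (-1 : F) ^ S.card • g (zr S τ v, y) ≠ 0 := by
  classical
  by_contra hcon
  push Not at hcon
  have hY : Fintype Y := Fintype.ofFinite Y
  let R : W →ₗ[F] ((Zb K m p) × Y → V) :=
    (LinearMap.funLeft F V (fun z : (Zb K m p) × Y => (z.1.1, z.2))).comp W.subtype
  have hR : Function.Injective R := by
    rw [← LinearMap.ker_eq_bot, Submodule.eq_bot_iff]
    intro g hg
    rw [LinearMap.mem_ker] at hg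
    have h0 : ∀ v ∈ Zb K m p, ∀ y, g.1 (v, y) = 0 := fun v hv y =>
      congrFun hg (⟨v, hv⟩, y)
    have key : ∀ N : ℕ, ∀ v : Fin K × Fin m → ZMod p,
        (univ.filter (fun k => v k ≠ 0)).card = N → ∀ y, g.1 (v, y) = 0 := by
      intro N
      induction N using Nat.strong_induction_on with
      | _ N ih =>
        intro v hv y
        by_cases hz : v ∈ Zb K m p
        · exact h0 v hz y
        · have h1 : ∀ j, ∃ t, v (j, t) ≠ 0 := by
            intro j
            by_contra hj
            push Not at hj
            exact hz (by rw [Zb, mem_filter]; exact ⟨mem_univ _, j, hj⟩)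
          choose τ hτ using h1
          have h2 := hcon g.1 g.2 τ v y
          rw [← add_sum_erase univ _ (mem_univ (∅ : Finset (Fin K)))] at h2
          have h3 : ∑ S ∈ univ.erase (∅ : Finset (Fin K)),
              (-1 : F) ^ S.card • g.1 (zr S τ v, y) = 0 := by
            apply sum_eq_zero
            intro S hS
            rw [mem_erase] at hS
            obtain ⟨j, hj⟩ := nonempty_iff_ne_empty.2 hS.1
            have h4 : (univ.filter (fun k => zr S τ v k ≠ 0)).card < N := by
              rw [← hv]
              apply card_lt_card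
              rw [ssubset_iff_of_subset]
              · refine ⟨(j, τ j), by rw [mem_filter]; exact ⟨mem_univ _, hτ j⟩, ?_⟩
                rw [mem_filter]
                rintro ⟨-, h⟩
                exact h (by rw [zr, if_pos ⟨hj, rfl⟩])
              · intro k hk
                rw [mem_filter] at hk ⊢
                refine ⟨mem_univ _, fun h => hk.2 ?_⟩
                rw [zr]
                split_ifs
                · rfl
                · exact h
            rw [ih _ h4 _ rfl y, smul_zero]
          rw [h3, add_zero, card_empty, pow_zero, one_smul] at h2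
          have h5 : zr ∅ τ v = v := by
            funext k
            rw [zr, if_neg (fun h => notMem_empty _ h.1)]
          rwa [h5] at h2
    apply Subtype.ext
    funext x
    exact key _ x.1 rfl x.2
  have h1 := LinearMap.finrank_le_finrank_of_injective hR
  rw [Module.finrank_pi_fintype, Finset.sum_const, Finset.card_univ, smul_eq_mul,
    Fintype.card_prod, Fintype.card_coe, ← Nat.card_eq_fintype_card (α := Y)] at h1
  omega

end Q123.AC
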