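import Mathlib
import Pool.Agent.Q123.AC.Base
import Pool.Agent.Q123.AC.Count
import Pool.Agent.Q123.AC.Box
import Pool.Agent.Q123.AC.Deg

/-!
# Codes invariant under a group with a large `p`-rank, `p` the characteristic of the field
-/

namespace Q123.AC

open Finset Module

theorem card_of_surj {X Y : Type*} [AddCommGroup X] [Finite X] [AddCommGroup Y] (π : X →+ Y)
    (hπ : Function.Surjective π) : Nat.card X = Nat.card π.ker * Nat.card Y := by
  have h1 := AddSubgroup.card_mul_index π.ker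
  rw [AddSubgroup.index_ker] at h1
  rw [← h1]
  congr 1
  have : (π.range : Set Y) = Set.univ := by
    rw [AddMonoidHom.coe_range, hπ.range_eq]
  exact Nat.card_congr ((Equiv.setCongr this).trans (Equiv.Set.univ Y))

/-- the density of a code does not decrease if one passes to the quotient by a subgroup of
prime power order -/
theorem quot_real {F X Y V : Type*} [Field F] [Finite F] [AddCommGroup X] [Finite X]
    [AddCommGroup V] [Module F V] [Finite V] [AddCommGroup Y] {p : ℕ} [Fact p.Prime] [CharP F p] (π : X →+ Y)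
    (hπ : Function.Surjective π) (hk : ∃ k, Nat.card π.ker = p ^ k) (C : Submodule F (X → V))
    (hC : Inv C) (ε : ℝ) (h : ε * Nat.card X ≤ finrank F C) :
    ε * Nat.card Y ≤ finrank F (pull π C) := by
  have h1 := quot π hπ hk C hC
  have h2 := card_of_surj π hπ
  have h3 : (0 : ℝ) < Nat.card π.ker := by exact_mod_cast Nat.card_pos
  have h4 : (finrank F C : ℝ) ≤ Nat.card π.ker * finrank F (pull π C) := by exact_mod_cast h1
  rw [h2, Nat.cast_mul] at h
  have h5 : (Nat.card π.ker : ℝ) * (ε * Nat.card Y) ≤ Nat.card π.ker * finrank F (pull π C) := by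
    calc (Nat.card π.ker : ℝ) * (ε * Nat.card Y) = ε * (Nat.card π.ker * Nat.card Y) := by ring
      _ ≤ _ := h.trans h4
  exact le_of_mul_le_mul_left h5 h3

theorem solve {X X' ι : Type*} [AddCommGroup X] [AddCommGroup X'] [Fintype ι] [DecidableEq ι]
    {ℓ : ℕ} [NeZero ℓ] (ψ : X →+ X') (hψ : Function.Surjective ψ) (φ : ι → X →+ ZMod ℓ)
    (z : ι → X) (hz : ∀ i j, φ i (z j) = if i = j then 1 else 0) (hzψ : ∀ i, ψ (z i) = 0)
    (v : ι → ZMod ℓ) (y : X') : ∃ x, ψ x = y ∧ ∀ i, φ i x = v i := by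
  obtain ⟨x0, hx0⟩ := hψ y
  refine ⟨x0 + ∑ i, (v i - φ i x0).val • z i, ?_, fun j => ?_⟩
  · rw [map_add, map_sum, hx0, sum_eq_zero, add_zero]
    intro i _
    rw [map_nsmul, hzψ, smul_zero]
  · rw [map_add, map_sum]
    rw [sum_eq_single j]
    · rw [map_nsmul, hz, if_pos rfl, nsmul_eq_mul, mul_one, ZMod.natCast_zmod_val]
      ring
    · intro i _ hi
      rw [map_nsmul, hz, if_neg (Ne.symm hi), smul_zero]
    · intro h
      exact absurd (mem_univ _) h

theorem modular (p K B : ℕ) [hp : Fact p.Prime] (F V : Type) [Field F] [Finite F] [CharP F p]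
    [AddCommGroup V] [Module F V] [Finite V] (ε : ℝ) (hε : 0 < ε) : ∃ m L : ℕ, ∀ (X X' : Type) [AddCommGroup X] [Finite X]
      [AddCommGroup X'] (ψ : X →+ X'), Function.Surjective ψ → (∃ k, Nat.card ψ.ker = p ^ k) →
      Nat.card X' ≤ B → ∀ (φ : (Fin K × Fin m) × Fin L → X →+ ZMod p)
      (z : (Fin K × Fin m) × Fin L → X), (∀ i j, φ i (z j) = if i = j then 1 else 0) →
      (∀ i, ψ (z i) = 0) → ∀ C : Submodule F (X → V), Inv C →
      ε * Nat.card X ≤ finrank F C →
      ∃ f ∈ C, f ≠ 0 ∧ ∃ a b : Fin K → (Fin K × Fin m) × Fin L, Function.Injective a ∧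
        (∀ i j, a i ≠ b j) ∧ ∀ x, f x ≠ 0 → ∀ j, φ (a j) x ≠ φ (b j) x := by
  classical
  have hp1 : (1 : ℝ) < p := by exact_mod_cast hp.out.one_lt
  obtain ⟨t, ht⟩ : ∃ t, t = finrank F V := ⟨_, rfl⟩
  obtain ⟨m, hm⟩ : ∃ m : ℕ, ((K * t : ℕ) : ℝ) / ε < (p : ℝ) ^ m := pow_unbounded_of_one_lt _ hp1
  have hm' : ((K * t : ℕ) : ℝ) < ε * (p : ℝ) ^ m := by
    rw [div_lt_iff₀ hε] at hm
    linarith
  obtain ⟨L, hL⟩ := box (Fin K × Fin m) (Nat.card V ^ (p ^ (K * m) * B))
  refine ⟨m, L, ?_⟩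
  intro X X' _ _ _ ψ hψ hker hB φ z hz hzψ C hC hdim
  have hX' : Finite X' := Finite.of_surjective ψ hψ
  have hX'pos : 0 < Nat.card X' := Nat.card_pos
  -- the quotient maps
  let π : (Fin K × Fin m → Fin L) → X →+ ((Fin K × Fin m → ZMod p) × X') := fun l =>
    AddMonoidHom.prod (AddMonoidHom.pi (fun k => φ (k, l k))) ψ
  have hπ1 : ∀ l x, π l x = (fun k => φ (k, l k) x, ψ x) := fun l x => rfl
  have hπ : ∀ l, Function.Surjective (π l) := by
    rintro l ⟨v, y⟩
    obtain ⟨x, hx, hx'⟩ := solve ψ hψ φ z hz hzψ (fun i => v i.1) y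
    refine ⟨x, ?_⟩
    rw [hπ1, hx]
    congr 1
    funext k
    exact hx' _
  have hkerl : ∀ l, ∃ k, Nat.card (π l).ker = p ^ k := by
    intro l
    obtain ⟨k, hk⟩ := hker
    have h1 : (π l).ker ≤ ψ.ker := by
      intro x hx
      rw [AddMonoidHom.mem_ker] at hx ⊢
      exact congrArg Prod.snd hx
    have h2 := AddSubgroup.card_dvd_of_le h1
    rw [hk, Nat.dvd_prime_pow hp.out] at h2
    obtain ⟨k', -, hk'⟩ := h2
    exact ⟨k', hk'⟩
  have hcardY : Nat.card ((Fin K × Fin m → ZMod p) × X') = p ^ (K * m) * Nat.card X' := by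
    rw [Nat.card_prod, Nat.card_fun, Nat.card_prod, Nat.card_fin, Nat.card_fin, Nat.card_zmod]
  have hdiml : ∀ l, (Zb K m p).card * Nat.card X' * finrank F V < finrank F (pull (π l) C) := by
    intro l
    have h1 := quot_real (π l) (hπ l) (hkerl l) C hC ε hdim
    rw [hcardY] at h1
    rw [← ht]
    have h2 : ((Zb K m p).card : ℝ) * t < ε * (p : ℝ) ^ (K * m) := by
      have h3 : ((Zb K m p).card : ℝ) ≤ K * (p : ℝ) ^ ((K - 1) * m) := by
        exact_mod_cast card_Zb (K := K) (m := m) (p := p)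
      refine (mul_le_mul_of_nonneg_right h3 (Nat.cast_nonneg t)).trans_lt ?_
      rcases Nat.eq_zero_or_pos K with rfl | hK
      · simp
        exact hε
      · obtain ⟨K', rfl⟩ : ∃ K', K = K' + 1 := ⟨K - 1, by omega⟩
        rw [Nat.add_sub_cancel, Nat.add_mul, one_mul, pow_add]
        have : (0 : ℝ) < (p : ℝ) ^ (K' * m) := by positivity
        calc ((K' + 1 : ℕ) : ℝ) * (p : ℝ) ^ (K' * m) * t
            = (((K' + 1) * t : ℕ) : ℝ) * (p : ℝ) ^ (K' * m) := by push_cast; ring
          _ < (ε * (p : ℝ) ^ m) * (p : ℝ) ^ (K' * m) := mul_lt_mul_of_pos_right hm' this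
          _ = ε * ((p : ℝ) ^ (K' * m) * (p : ℝ) ^ m) := by ring
    have h4 : ((Zb K m p).card : ℝ) * Nat.card X' * t < finrank F (pull (π l) C) := by
      have h5 : (0 : ℝ) < Nat.card X' := by exact_mod_cast hX'pos
      calc ((Zb K m p).card : ℝ) * Nat.card X' * t = ((Zb K m p).card : ℝ) * t * Nat.card X' := by
            ring
        _ < (ε * (p : ℝ) ^ (K * m)) * Nat.card X' := mul_lt_mul_of_pos_right h2 h5
        _ = ε * ((p ^ (K * m) * Nat.card X' : ℕ) : ℝ) := by push_cast; ring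
        _ ≤ _ := h1
    exact_mod_cast h4
  have hex := fun l => deg (pull (π l) C) (hdiml l)
  choose g hg τ v y hne using hex
  have hΓ : Nat.card ((Fin K × Fin m → ZMod p) × X' → V) ≤
      Nat.card V ^ (p ^ (K * m) * B) := by
    rw [Nat.card_fun, hcardY]
    exact Nat.pow_le_pow_right Nat.card_pos (Nat.mul_le_mul_left _ hB)
  obtain ⟨a, b, hab, hs⟩ := hL _ hΓ g
  -- the mixed assignments
  set τ' := τ b with hτ'
  let lS : Finset (Fin K) → (Fin K × Fin m → Fin L) := fun S k =>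
    if k.1 ∈ S ∧ k.2 = τ' k.1 then a k else b k
  have hgS : ∀ S, g (lS S) = g b := by
    intro S
    have := hs (fun k => decide (k.1 ∈ S ∧ k.2 = τ' k.1))
    simpa [lS] using this
  let f : X → V := fun x => ∑ S : Finset (Fin K), (-1 : F) ^ S.card • g b (π (lS S) x)
  have hfC : f ∈ C := by
    have : f = ∑ S : Finset (Fin K), (-1 : F) ^ S.card • (fun x => g b (π (lS S) x)) := by
      funext x
      rw [Finset.sum_apply]
      rfl
    rw [this]
    refine Submodule.sum_mem _ (fun S _ => Submodule.smul_mem _ _ ?_)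
    have := hg (lS S)
    rw [mem_pull, hgS S] at this
    exact this
  refine ⟨f, hfC, ?_, fun j => ((j, τ' j), a (j, τ' j)), fun j => ((j, τ' j), b (j, τ' j)),
    ?_, ?_, ?_⟩
  · intro hf0
    obtain ⟨x, hx, hx'⟩ := solve ψ hψ φ z hz hzψ
      (fun i => if i.2 = b i.1 then v b i.1 else 0) (y b)
    apply hne b
    have h1 : ∑ S : Finset (Fin K), (-1 : F) ^ S.card • g b (π (lS S) x) = 0 := congrFun hf0 x
    refine Eq.trans (sum_congr rfl (fun S _ => ?_)) h1
    refine congrArg (fun u => (-1 : F) ^ S.card • u) (congrArg (g b) ?_)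
    rw [hπ1, hx]
    congr 1
    funext k
    rw [hx']
    show (if k.1 ∈ S ∧ k.2 = τ' k.1 then 0 else v b k) =
      if (if k.1 ∈ S ∧ k.2 = τ' k.1 then a k else b k) = b k then v b k else 0
    split_ifs with h2 h3 h3
    · exact absurd h3 (hab k)
    · rfl
    · rfl
    · exact absurd rfl h3
  · intro i j hij
    have := congrArg (fun k => k.1.1) hij
    exact this
  · intro i j hij
    have h1 : i = j := congrArg (fun k => k.1.1) hij
    subst h1
    exact hab _ (congrArg Prod.snd hij)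
  · intro x hx j hj
    apply hx
    refine alt_sum (fun S => g b (π (lS S) x)) j (fun S hjS => ?_)
    show g b (π (lS (insert j S)) x) = g b (π (lS S) x)
    congr 1
    rw [hπ1, hπ1]
    congr 1
    funext k
    by_cases hk : k = (j, τ' j)
    · subst hk
      show φ ((j, τ' j), if j ∈ insert j S ∧ τ' j = τ' j then _ else _) x =
        φ ((j, τ' j), if j ∈ S ∧ τ' j = τ' j then _ else _) x
      rw [if_pos ⟨mem_insert_self _ _, rfl⟩, if_neg (fun h => hjS h.1)]
      exact hj
    · have : (k.1 ∈ insert j S ∧ k.2 = τ' k.1) ↔ (k.1 ∈ S ∧ k.2 = τ' k.1) := by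
        rw [mem_insert]
        constructor
        · rintro ⟨h1 | h1, h2⟩
          · exfalso
            apply hk
            rw [← h1, ← h2]
          · exact ⟨h1, h2⟩
        · rintro ⟨h1, h2⟩
          exact ⟨Or.inr h1, h2⟩
      show φ (k, if k.1 ∈ insert j S ∧ k.2 = τ' k.1 then a k else b k) x =
        φ (k, if k.1 ∈ S ∧ k.2 = τ' k.1 then a k else b k) x
      simp only [this]

end Q123.AC
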