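import Mathlib
import Pool.Agent.Q123.AC.Base
import Pool.Agent.Q123.AC.Iter
import Pool.Agent.Q123.AC.Char

/-!
# Codes invariant under a group with a large `ℓ`-rank, `ℓ` different from the characteristic
-/

namespace Q123.AC

open Finset Module

/-- the character `x ↦ ζ ^ (φ x)` -/
noncomputable def eta {X E : Type} [AddCommGroup X] [Field E] {ℓ : ℕ} [NeZero ℓ] (ζ : E)
    (hζ : IsPrimitiveRoot ζ ℓ) (φ : X →+ ZMod ℓ) : Multiplicative X →* Eˣ :=
  ((AddChar.zmodChar ℓ hζ.pow_eq_one).toMonoidHom.comp (AddMonoidHom.toMultiplicative φ)).toHomUnits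

theorem ev_eta {X E : Type} [AddCommGroup X] [Field E] {ℓ : ℕ} [NeZero ℓ] (ζ : E)
    (hζ : IsPrimitiveRoot ζ ℓ) (φ : X →+ ZMod ℓ) (x : X) :
    ev (eta ζ hζ φ) x = ζ ^ (φ x).val := rfl

/-- many characters occur in a large code -/
theorem many {F E X T : Type} [Field F] [Finite F] [Field E] [Finite E] [Algebra F E]
    [AddCommGroup X] [Fintype X] [Finite T]
    [HasEnoughRootsOfUnity E (Monoid.exponent (Multiplicative X))]
    (C : Submodule F (X → T → F)) (S : Finset (Multiplicative X →* Eˣ))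
    (hS : ∀ f ∈ C, ∀ χ, hat (E := E) f χ ≠ 0 → χ ∈ S) :
    finrank F C ≤ finrank F E * (S.card * Nat.card T) := by
  classical
  let Ψ : C → (S → T → E) := fun f χ => hat f.1 χ.1
  have hsub : ∀ f g : X → T → F, ∀ χ : Multiplicative X →* Eˣ,
      hat (E := E) (f - g) χ = hat f χ - hat g χ := by
    intro f g χ
    funext t
    rw [hat, Pi.sub_apply, hat, hat, ← sum_sub_distrib]
    refine sum_congr rfl (fun h _ => ?_)
    rw [Pi.sub_apply, Pi.sub_apply, map_sub, mul_sub]
  have hinj : Function.Injective Ψ := by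
    intro f g hfg
    have h1 : f.1 - g.1 = 0 := by
      apply hat_inj (E := E)
      intro χ
      by_contra hne
      have hχ : χ ∈ S := hS _ (C.sub_mem f.2 g.2) χ hne
      apply hne
      rw [hsub]
      have := congrFun hfg ⟨χ, hχ⟩
      exact sub_eq_zero.2 this
    exact Subtype.ext (sub_eq_zero.1 h1)
  have h1 := Nat.card_le_card_of_injective Ψ hinj
  have h2 : Nat.card C = Nat.card F ^ finrank F C := Module.natCard_eq_pow_finrank
  have h3 : Nat.card E = Nat.card F ^ finrank F E := by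
    have : Module.Finite F E := Module.Finite.of_finite
    exact Module.natCard_eq_pow_finrank
  rw [h2, Nat.card_fun, Nat.card_fun, h3, ← pow_mul, ← pow_mul, Nat.card_eq_fintype_card (α := S),
    Fintype.card_coe] at h1
  have h4 : 1 < Nat.card F := Finite.one_lt_card
  have h5 := (Nat.pow_le_pow_iff_right h4).1 h1
  calc finrank F C ≤ _ := h5
    _ = _ := by ring

theorem ordinary (F E T : Type) [Field F] [Finite F] [Field E] [Finite E] [Algebra F E]
    [Finite T] (ℓ K : ℕ) [hℓ : Fact ℓ.Prime] (ζ : E) (hζ : IsPrimitiveRoot ζ ℓ) (ε : ℝ)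
    (hε : 0 < ε) : ∃ N : ℕ, ∀ (X : Type) [AddCommGroup X] [Finite X]
      [HasEnoughRootsOfUnity E (Monoid.exponent (Multiplicative X))]
      (φ : Fin K × Fin N → X →+ ZMod ℓ) (z : Fin K × Fin N → X),
      (∀ i j, φ i (z j) = if i = j then 1 else 0) → ∀ C : Submodule F (X → T → F), Inv C →
      ε * Nat.card X ≤ finrank F C →
      ∃ f ∈ C, f ≠ 0 ∧ ∃ a b : Fin K → Fin K × Fin N, Function.Injective a ∧
        (∀ i j, a i ≠ b j) ∧ ∀ x, f x ≠ 0 → ∀ j, φ (a j) x ≠ φ (b j) x := by
  classical
  have hRpos : 0 < finrank F E * Nat.card T + 1 := Nat.succ_pos _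
  have hMpos : 0 < Nat.card (T → E) := Nat.card_pos
  obtain ⟨R, hR⟩ : ∃ R : ℕ, R = finrank F E * Nat.card T + 1 := ⟨_, rfl⟩
  obtain ⟨M, hM⟩ : ∃ M : ℕ, M = Nat.card (T → E) := ⟨_, rfl⟩
  rw [← hR] at hRpos
  rw [← hM] at hMpos
  have hR0 : (0 : ℝ) < R := by exact_mod_cast hRpos
  have hM0 : (0 : ℝ) < M := by exact_mod_cast hMpos
  obtain ⟨N, hN⟩ := iter K (ε / (R * M)) (by positivity)
  refine ⟨N, ?_⟩
  intro X _ _ _ φ z hz C hC hdim
  have hXf : Fintype X := Fintype.ofFinite X
  have : Finite (Multiplicative X →* Eˣ) := fin_ch X E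
  have hch : Fintype (Multiplicative X →* Eˣ) := Fintype.ofFinite _
  have hTE : Fintype (T → E) := Fintype.ofFinite _
  set S : Finset (Multiplicative X →* Eˣ) :=
    univ.filter (fun χ => ∃ f ∈ C, hat (E := E) f χ ≠ 0) with hS
  have h1 := many (E := E) C S (fun f hf χ hχ => by
    rw [hS, mem_filter]
    exact ⟨mem_univ _, f, hf, hχ⟩)
  have hvec : ∀ χ : Multiplicative X →* Eˣ, ∃ v : T → E, χ ∈ S →
      v ≠ 0 ∧ (fun x t => ev χ x * v t) ∈ Dm (E := E) C := by
    intro χ
    by_cases hχ : χ ∈ S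
    · rw [hS, mem_filter] at hχ
      obtain ⟨-, f, hf, hne⟩ := hχ
      exact ⟨hat f χ, fun _ => ⟨hne, hat_mem C hC f hf χ⟩⟩
    · exact ⟨0, fun h => absurd h hχ⟩
  choose v hv using hvec
  obtain ⟨w, -, hw⟩ := Finset.exists_le_card_fiber_of_nsmul_le_card_of_maps_to
    (s := S) (t := (univ : Finset (T → E))) (f := v) (b := (S.card : ℝ) / M)
    (fun _ _ => mem_univ _) univ_nonempty (by
      rw [nsmul_eq_mul, card_univ, ← Nat.card_eq_fintype_card, ← hM, mul_div_cancel₀ _ hM0.ne'])
  have hcardch : (Fintype.card (Multiplicative X →* Eˣ) : ℝ) = Nat.card X := by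
    rw [← Nat.card_eq_fintype_card, card_ch]
  have h2 : ε * Nat.card X ≤ (R : ℝ) * S.card := by
    refine hdim.trans ?_
    have : finrank F C ≤ R * S.card := by
      calc finrank F C ≤ _ := h1
        _ = (finrank F E * Nat.card T) * S.card := by ring
        _ ≤ R * S.card := Nat.mul_le_mul_right _ (by omega)
    exact_mod_cast this
  obtain ⟨a, b, hab, χ, hχ⟩ := hN (Multiplicative X →* Eˣ) (fun k => eta ζ hζ (φ k))
    (S.filter (fun χ => v χ = w)) (by
      refine le_trans ?_ hw
      rw [hcardch, div_mul_eq_mul_div, div_le_div_iff₀ (by positivity) hM0]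
      nlinarith)
  have hw0 : w ≠ 0 := by
    have := hχ (fun _ => true)
    rw [mem_filter] at this
    rw [← this.2]
    exact (hv _ this.1).1
  have hmem : ∀ s : Fin K → Bool,
      (fun x t => ev (χ * ∏ j, eta ζ hζ (φ (j, if s j then a j else b j))) x * w t) ∈
        Dm (E := E) C := by
    intro s
    have := hχ s
    rw [mem_filter] at this
    have h3 := (hv _ this.1).2
    rwa [this.2] at h3
  -- the word
  let W : X → T → E := fun x t =>
    ev χ x * (∏ j, (ev (eta ζ hζ (φ (j, a j))) x - ev (eta ζ hζ (φ (j, b j))) x)) * w t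
  have hWmem : W ∈ Dm (E := E) C := by
    have e : W = ∑ s : Fin K → Bool, (∏ j, (if s j then (1 : E) else -1)) •
        (fun x t => ev (χ * ∏ j, eta ζ hζ (φ (j, if s j then a j else b j))) x * w t) := by
      funext x t
      rw [Finset.sum_apply, Finset.sum_apply]
      have e1 : ∏ j, (ev (eta ζ hζ (φ (j, a j))) x - ev (eta ζ hζ (φ (j, b j))) x) =
          ∑ s : Fin K → Bool, ∏ j, ((if s j then (1 : E) else -1) *
            ev (eta ζ hζ (φ (j, if s j then a j else b j))) x) := by
        have h4 := Finset.prod_univ_sum (fun _ : Fin K => (univ : Finset Bool))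
          (fun j c => (if c then (1 : E) else -1) *
            ev (eta ζ hζ (φ (j, if c then a j else b j))) x)
        rw [Fintype.piFinset_univ] at h4
        rw [← h4]
        refine prod_congr rfl (fun j _ => ?_)
        rw [Fintype.sum_bool]
        simp
        ring
      show ev χ x * _ * w t = _
      rw [e1, mul_sum, sum_mul]
      refine sum_congr rfl (fun s _ => ?_)
      show _ = (∏ j, (if s j then (1 : E) else -1)) *
        (ev (χ * ∏ j, eta ζ hζ (φ (j, if s j then a j else b j))) x * w t)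
      rw [ev_mul, ev_prod, prod_mul_distrib]
      ring
    rw [e]
    exact Submodule.sum_mem _ (fun s _ => Submodule.smul_mem _ _ (hmem s))
  have hWne : W ≠ 0 := by
    obtain ⟨t, ht⟩ : ∃ t, w t ≠ 0 := by
      by_contra h
      push Not at h
      exact hw0 (funext h)
    intro h0
    have h3 : ev χ (∑ j, z (j, a j)) * (∏ j, (ev (eta ζ hζ (φ (j, a j))) (∑ j, z (j, a j)) -
      ev (eta ζ hζ (φ (j, b j))) (∑ j, z (j, a j)))) * w t = 0 :=
      congrFun (congrFun h0 (∑ j, z (j, a j))) t
    have h4 : ∀ j, φ (j, a j) (∑ i, z (i, a i)) = 1 := by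
      intro j
      rw [map_sum, sum_eq_single j]
      · rw [hz, if_pos rfl]
      · intro i _ hij
        rw [hz, if_neg]
        intro h
        exact hij (congrArg Prod.fst h).symm
      · intro h
        exact absurd (mem_univ _) h
    have h5 : ∀ j, φ (j, b j) (∑ i, z (i, a i)) = 0 := by
      intro j
      rw [map_sum]
      refine sum_eq_zero (fun i _ => ?_)
      rw [hz, if_neg]
      intro h
      have h6 : j = i := congrArg Prod.fst h
      subst h6
      exact hab j (congrArg Prod.snd h).symm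
    have hone : (1 : ZMod ℓ).val = 1 := by
      have : Fact (1 < ℓ) := ⟨hℓ.out.one_lt⟩
      exact ZMod.val_one ℓ
    have h7 : ∏ j, (ev (eta ζ hζ (φ (j, a j))) (∑ i, z (i, a i)) -
        ev (eta ζ hζ (φ (j, b j))) (∑ i, z (i, a i))) = (ζ - 1) ^ K := by
      rw [prod_congr rfl (fun j _ => by
        rw [ev_eta, ev_eta, h4, h5, hone, ZMod.val_zero, pow_one, pow_zero]), prod_const, card_univ,
        Fintype.card_fin]
    rw [h7] at h3
    have h8 : ζ - 1 ≠ 0 := sub_ne_zero.2 (hζ.ne_one hℓ.out.one_lt)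
    rcases mul_eq_zero.1 h3 with h9 | h9
    · rcases mul_eq_zero.1 h9 with h10 | h10
      · exact ev_ne _ _ h10
      · exact pow_ne_zero _ h8 h10
    · exact ht h9
  obtain ⟨f, hf, hf0, hfs⟩ := descent C W hWmem hWne
  refine ⟨f, hf, hf0, fun j => (j, a j), fun j => (j, b j), ?_, ?_, ?_⟩
  · intro i j h
    exact congrArg Prod.fst h
  · intro i j h
    have h1 : i = j := congrArg Prod.fst h
    subst h1
    exact hab i (congrArg Prod.snd h)
  · intro x hx j hj
    apply hx
    apply hfs
    funext t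
    show ev χ x * _ * w t = 0
    rw [prod_eq_zero (mem_univ j), mul_zero, zero_mul]
    rw [ev_eta, ev_eta, hj, sub_self]

end Q123.AC
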