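import Mathlib
import Pool.Agent.Q123.AC.Base
import Pool.Agent.Q123.AC.Count
import Pool.Agent.Q123.AC.Mod

/-!
# Coordinates on a product of cyclic groups of prime power order
-/

namespace Q123.AC

open Finset Module

/-- the group -/
abbrev Gr {ι : Type} (q a : ι → ℕ) : Type := (i : ι) → ZMod (q i ^ a i)

theorem card_Gr {ι : Type} [Fintype ι] (q a : ι → ℕ) : Nat.card (Gr q a) = ∏ i, q i ^ a i := by
  rw [Nat.card_pi]
  exact prod_congr rfl (fun i _ => Nat.card_zmod _)

theorem fin_Gr {ι : Type} [Fintype ι] (q a : ι → ℕ) (hq : ∀ i, (q i).Prime) : Finite (Gr q a) := by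
  apply Nat.finite_of_card_ne_zero
  rw [card_Gr]
  exact prod_ne_zero_iff.2 (fun i _ => pow_ne_zero _ (hq i).ne_zero)

theorem dual {ι : Type} [DecidableEq ι] (q a : ι → ℕ) (ℓ : ℕ) {κ : Type} [DecidableEq κ]
    (c : κ → ι) (hc : Function.Injective c) (hq : ∀ k, q (c k) = ℓ) (ha : ∀ k, 1 ≤ a (c k)) :
    ∃ (φ : κ → Gr q a →+ ZMod ℓ) (z : κ → Gr q a),
      (∀ i j, φ i (z j) = if i = j then 1 else 0) ∧ ∀ k i, i ≠ c k → z k i = 0 := by
  have hdvd : ∀ k, ℓ ∣ q (c k) ^ a (c k) := by
    intro k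
    have h1 := ha k
    have h2 : ℓ ∣ ℓ ^ a (c k) := dvd_pow_self _ (by omega)
    rwa [← hq k] at h2 ⊢
  refine ⟨fun k => (ZMod.castHom (hdvd k) (ZMod ℓ)).toAddMonoidHom.comp
    (Pi.evalAddMonoidHom (fun i => ZMod (q i ^ a i)) (c k)), fun k => Pi.single (c k) 1, ?_, ?_⟩
  · intro i j
    show ZMod.castHom (hdvd i) (ZMod ℓ) ((Pi.single (c j) 1 : Gr q a) (c i)) = _
    by_cases h : i = j
    · subst h
      rw [if_pos rfl, Pi.single_eq_same, map_one]
    · rw [if_neg h, Pi.single_eq_of_ne (fun h' => h (hc h')), map_zero]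
  · intro k i hi
    exact Pi.single_eq_of_ne hi _

/-- the restriction to a set of coordinates -/
def restr {ι : Type} (q a : ι → ℕ) (s : ι → Prop) :
    Gr q a →+ Gr (fun i : {i // s i} => q i.1) (fun i => a i.1) :=
  AddMonoidHom.pi (fun i => Pi.evalAddMonoidHom (fun i => ZMod (q i ^ a i)) i.1)

theorem restr_surj {ι : Type} (q a : ι → ℕ) (s : ι → Prop) :
    Function.Surjective (restr q a s) := by
  classical
  intro y
  refine ⟨fun i => if h : s i then y ⟨i, h⟩ else 0, ?_⟩
  funext i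
  show (if h : s i.1 then y ⟨i.1, h⟩ else 0) = y i
  rw [dif_pos i.2]

theorem ker_restr {ι : Type} [Fintype ι] (q a : ι → ℕ) (hq : ∀ i, (q i).Prime) (p : ℕ) :
    ∃ k, Nat.card (restr q a (fun i => q i ≠ p)).ker = p ^ k := by
  classical
  refine ⟨∑ i ∈ univ.filter (fun i => ¬ q i ≠ p), a i, ?_⟩
  have hfin := fin_Gr q a hq
  have h1 := card_of_surj (restr q a (fun i => q i ≠ p)) (restr_surj q a _)
  rw [card_Gr, card_Gr] at h1
  have h2 : ∏ i : {i // q i ≠ p}, q i.1 ^ a i.1 = ∏ i ∈ univ.filter (fun i => q i ≠ p),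
      q i ^ a i := by
    rw [prod_subtype (univ.filter (fun i => q i ≠ p)) (p := fun i => q i ≠ p)
      (by intro i; simp) (fun i => q i ^ a i)]
  rw [h2, ← prod_filter_mul_prod_filter_not univ (fun i => q i ≠ p), mul_comm] at h1
  have h3 : 0 < ∏ i ∈ univ.filter (fun i => q i ≠ p), q i ^ a i :=
    prod_pos (fun i _ => pow_pos (hq i).pos _)
  have h4 := Nat.eq_of_mul_eq_mul_right h3 h1
  rw [← h4, ← prod_pow_eq_pow_sum]
  refine prod_congr rfl (fun i hi => ?_)
  rw [mem_filter, not_not] at hi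
  rw [hi.2]

/-- the order of the group in terms of the number of its factors -/
theorem prod_le {ι : Type} [Fintype ι] (q a : ι → ℕ) (e : ℕ) (he : 0 < e)
    (hd : ∀ i, q i ^ a i ∣ e) : ∏ i, q i ^ a i ≤ e ^ (univ.filter (fun i => 1 ≤ a i)).card := by
  classical
  rw [← prod_filter_mul_prod_filter_not univ (fun i => 1 ≤ a i)]
  have h1 : ∏ i ∈ univ.filter (fun i => ¬ 1 ≤ a i), q i ^ a i = 1 := by
    refine prod_eq_one (fun i hi => ?_)
    rw [mem_filter] at hi
    have : a i = 0 := by omega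
    rw [this, pow_zero]
  rw [h1, mul_one]
  exact prod_le_pow_card _ _ _ (fun i _ => Nat.le_of_dvd he (hd i))

/-- sorting the factors by their primes -/
theorem card_sort {ι : Type} [Fintype ι] (q a : ι → ℕ) (e : ℕ) (he : 0 < e)
    (hq : ∀ i, (q i).Prime) (hd : ∀ i, q i ^ a i ∣ e) :
    (univ.filter (fun i => 1 ≤ a i)).card =
      ∑ ℓ ∈ e.primeFactors, (univ.filter (fun i => q i = ℓ ∧ 1 ≤ a i)).card := by
  classical
  rw [card_eq_sum_card_fiberwise (t := e.primeFactors) (f := q)]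
  · refine sum_congr rfl (fun ℓ _ => ?_)
    congr 1
    ext i
    simp only [mem_filter, mem_univ, true_and]
    tauto
  · intro i hi
    rw [mem_coe, mem_filter] at hi
    rw [mem_coe, Nat.mem_primeFactors]
    exact ⟨hq i, (dvd_pow_self _ (by omega)).trans (hd i), he.ne'⟩

/-- an injection of a given finite type into the factors of a given prime -/
theorem exists_inj {ι κ : Type} [Fintype ι] [Fintype κ] (s : ι → Prop) [DecidablePred s]
    (h : Fintype.card κ ≤ (univ.filter s).card) :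
    ∃ c : κ → ι, Function.Injective c ∧ ∀ k, s (c k) := by
  classical
  have h1 : Fintype.card κ ≤ Fintype.card {i // s i} := by
    rw [Fintype.card_subtype]
    exact h
  obtain ⟨c⟩ := Function.Embedding.nonempty_of_card_le h1
  exact ⟨fun k => (c k).1, fun i j hij => c.injective (Subtype.ext hij), fun k => (c k).2⟩

end Q123.AC
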