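import Mathlib
import Pool.Agent.Q123.AC.Base
import Pool.Agent.Q123.AC.Count
import Pool.Agent.Q123.AC.Mod
import Pool.Agent.Q123.AC.Ord
import Pool.Agent.Q123.AC.Struct

/-!
# Light words in codes invariant under an abelian group of bounded exponent
-/

namespace Q123.AC

open Finset Module

theorem exists_ext (F : Type) [Field F] [Finite F] (n : ℕ) (hn : (n : F) ≠ 0) :
    ∃ (E : Type) (_ : Field E) (_ : Finite E) (_ : Algebra F E), HasEnoughRootsOfUnity E n := by
  have h1 : NeZero (n : F) := ⟨hn⟩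
  have h2 : NeZero n := ⟨fun h => hn (by rw [h, Nat.cast_zero])⟩
  have h3 : Module.Finite F (CyclotomicField n F) :=
    IsCyclotomicExtension.finite {n} F (CyclotomicField n F)
  have h4 : Finite (CyclotomicField n F) := Module.finite_of_finite F
  refine ⟨CyclotomicField n F, inferInstance, h4, inferInstance, ⟨⟨_,
    IsCyclotomicExtension.zeta_spec n F (CyclotomicField n F)⟩, inferInstance⟩⟩

theorem finish {X V κ : Type} [AddCommGroup X] [Finite X] [Zero V] [DecidableEq κ] (ℓ : ℕ)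
    [NeZero ℓ] (φ : κ → X →+ ZMod ℓ) (z : κ → X)
    (hz : ∀ i j, φ i (z j) = if i = j then 1 else 0) (K : ℕ) (a b : Fin K → κ)
    (ha : Function.Injective a) (hab : ∀ i j, a i ≠ b j) (f : X → V)
    (hf : ∀ x, f x ≠ 0 → ∀ j, φ (a j) x ≠ φ (b j) x) (δ : ℝ)
    (hδ : (1 - 1 / (ℓ : ℝ)) ^ K ≤ δ) : (Nat.card {x // f x ≠ 0} : ℝ) ≤ δ * Nat.card X := by
  classical
  have hX : Fintype X := Fintype.ofFinite X
  have h1 := count_fin φ z hz K a b ha hab
  rw [← Nat.card_eq_fintype_card] at h1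
  have h2 : Nat.card {x // f x ≠ 0} ≤
      (univ.filter (fun x : X => ∀ j, φ (a j) x ≠ φ (b j) x)).card := by
    rw [Nat.card_eq_fintype_card, Fintype.card_subtype]
    apply card_le_card
    intro x hx
    rw [mem_filter] at hx ⊢
    exact ⟨mem_univ _, hf x hx.2⟩
  calc (Nat.card {x // f x ≠ 0} : ℝ) ≤
      ((univ.filter (fun x : X => ∀ j, φ (a j) x ≠ φ (b j) x)).card : ℝ) := by exact_mod_cast h2
    _ = (1 - 1 / (ℓ : ℝ)) ^ K * Nat.card X := h1
    _ ≤ δ * Nat.card X := mul_le_mul_of_nonneg_right hδ (Nat.cast_nonneg _)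

theorem mainX (F : Type) [Field F] [Finite F] (e : ℕ) (he : 0 < e) (T : Type) [Finite T]
    (ε δ : ℝ) (hε : 0 < ε) (hδ : 0 < δ) : ∃ N : ℕ, ∀ (ι : Type) [Fintype ι] (q a : ι → ℕ),
      (∀ i, (q i).Prime) → (∀ i, q i ^ a i ∣ e) → N ≤ Nat.card (Gr q a) →
      ∀ C : Submodule F (Gr q a → T → F), Inv C → ε * Nat.card (Gr q a) ≤ finrank F C →
      ∃ f ∈ C, f ≠ 0 ∧ (Nat.card {x // f x ≠ 0} : ℝ) ≤ δ * Nat.card (Gr q a) := by
  classical
  obtain ⟨p, hpF⟩ := CharP.exists F
  have hp : p.Prime := by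
    rcases CharP.char_is_prime_or_zero F p with h | h
    · exact h
    · subst h
      have : CharZero F := CharP.charP_to_charZero F
      exact absurd ‹Finite F› (by
        rw [not_finite_iff_infinite]
        exact Infinite.of_injective (fun n : ℕ => (n : F)) Nat.cast_injective)
  have hpf : Fact p.Prime := ⟨hp⟩
  -- the number of the pairs
  obtain ⟨K, hK⟩ : ∃ K : ℕ, (1 - 1 / ((e + p : ℕ) : ℝ)) ^ K < δ := by
    have h1 : (0 : ℝ) < ((e + p : ℕ) : ℝ) := by exact_mod_cast (by omega : 0 < e + p)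
    apply exists_pow_lt_of_lt_one hδ
    have : 0 < 1 / ((e + p : ℕ) : ℝ) := by positivity
    linarith
  have hKℓ : ∀ ℓ : ℕ, 0 < ℓ → ℓ ≤ e + p → (1 - 1 / (ℓ : ℝ)) ^ K ≤ δ := by
    intro ℓ h0 h1
    refine le_trans ?_ hK.le
    have h2 : (1 : ℝ) ≤ ℓ := by exact_mod_cast h0
    have h3 : (ℓ : ℝ) ≤ ((e + p : ℕ) : ℝ) := by exact_mod_cast h1
    apply pow_le_pow_left₀
    · rw [sub_nonneg, div_le_one (by linarith)]
      exact h2
    · have : 1 / ((e + p : ℕ) : ℝ) ≤ 1 / (ℓ : ℝ) := one_div_le_one_div_of_le (by linarith) h3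
      linarith
  -- the extension
  obtain ⟨e', he'⟩ : ∃ e', e' = e / p ^ e.factorization p := ⟨_, rfl⟩
  have hcop : p.Coprime e' := by
    rw [he']
    exact Nat.coprime_ordCompl hp he.ne'
  have hmul : p ^ e.factorization p * e' = e := by
    rw [he']
    exact Nat.ordProj_mul_ordCompl_eq_self e p
  have he'pos : 0 < e' := by
    rcases Nat.eq_zero_or_pos e' with h | h
    · rw [h, mul_zero] at hmul
      omega
    · exact h
  have he'ne : NeZero e' := ⟨he'pos.ne'⟩
  have he'e : e' ∣ e := ⟨_, by rw [mul_comm]; exact hmul.symm⟩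
  have he'F : (e' : F) ≠ 0 := by
    intro h
    rw [CharP.cast_eq_zero_iff F p] at h
    have := hcop.eq_one_of_dvd h
    exact hp.one_lt.ne' this
  obtain ⟨E, _, _, _, hE⟩ := exists_ext F e' he'F
  have hdvd' : ∀ q a : ℕ, q.Prime → q ≠ p → q ^ a ∣ e → q ^ a ∣ e' := by
    intro q a hq hqp h
    rw [← hmul] at h
    refine Nat.Coprime.dvd_of_dvd_mul_left ?_ h
    exact Nat.Coprime.pow _ _ ((Nat.coprime_primes hq hp).2 hqp)
  -- the bounds for the ranks
  have hord : ∀ ℓ : ℕ, ∃ N : ℕ, ℓ.Prime → ℓ ∣ e' → ∀ (X : Type) [AddCommGroup X] [Finite X]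
      [HasEnoughRootsOfUnity E (Monoid.exponent (Multiplicative X))]
      (φ : Fin K × Fin N → X →+ ZMod ℓ) (z : Fin K × Fin N → X),
      (∀ i j, φ i (z j) = if i = j then 1 else 0) → ∀ C : Submodule F (X → T → F), Inv C →
      ε * Nat.card X ≤ finrank F C →
      ∃ f ∈ C, f ≠ 0 ∧ ∃ a b : Fin K → Fin K × Fin N, Function.Injective a ∧
        (∀ i j, a i ≠ b j) ∧ ∀ x, f x ≠ 0 → ∀ j, φ (a j) x ≠ φ (b j) x := by
    intro ℓ
    by_cases h : ℓ.Prime ∧ ℓ ∣ e'
    · have hℓ : Fact ℓ.Prime := ⟨h.1⟩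
      have hEℓ : HasEnoughRootsOfUnity E ℓ := HasEnoughRootsOfUnity.of_dvd E h.2
      obtain ⟨ζ, hζ⟩ := HasEnoughRootsOfUnity.exists_primitiveRoot E ℓ
      obtain ⟨N, hN⟩ := ordinary F E T ℓ K ζ hζ ε hε
      exact ⟨N, fun _ _ => hN⟩
    · exact ⟨0, fun h1 h2 => absurd ⟨h1, h2⟩ h⟩
  choose Nl hNl using hord
  obtain ⟨R, hR⟩ : ∃ R, R = ∑ ℓ ∈ e'.primeFactors, K * Nl ℓ := ⟨_, rfl⟩
  obtain ⟨m, L, hmL⟩ := modular p K (e' ^ R) F (T → F) ε hε
  refine ⟨e ^ (R + K * m * L) + 1, ?_⟩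
  intro ι _ q a hq hd hcard C hC hdim
  have hfin : Finite (Gr q a) := fin_Gr q a hq
  let ψ := restr q a (fun i => q i ≠ p)
  have hψ : Function.Surjective ψ := restr_surj q a _
  have hker : ∃ k, Nat.card ψ.ker = p ^ k := ker_restr q a hq p
  have hq' : ∀ i : {i // q i ≠ p}, (q i.1).Prime := fun i => hq i.1
  have hd' : ∀ i : {i // q i ≠ p}, q i.1 ^ a i.1 ∣ e' := fun i =>
    hdvd' _ _ (hq i.1) i.2 (hd i.1)
  have hfin' : Finite (Gr (fun i : {i // q i ≠ p} => q i.1) (fun i => a i.1)) :=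
    fin_Gr _ _ hq'
  by_cases hcase : ∃ ℓ ∈ e'.primeFactors,
      K * Nl ℓ ≤ (univ.filter (fun i : {i // q i ≠ p} => q i.1 = ℓ ∧ 1 ≤ a i.1)).card
  · -- a large rank for a prime different from the characteristic
    obtain ⟨ℓ, hℓ, hcardℓ⟩ := hcase
    rw [Nat.mem_primeFactors] at hℓ
    have hℓf : Fact ℓ.Prime := ⟨hℓ.1⟩
    obtain ⟨c, hc, hcs⟩ := exists_inj (κ := Fin K × Fin (Nl ℓ))
      (fun i : {i // q i ≠ p} => q i.1 = ℓ ∧ 1 ≤ a i.1) (by
        rw [Fintype.card_prod, Fintype.card_fin, Fintype.card_fin]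
        exact hcardℓ)
    obtain ⟨φ, z, hz, -⟩ := dual (fun i : {i // q i ≠ p} => q i.1) (fun i => a i.1) ℓ c hc
      (fun k => (hcs k).1) (fun k => (hcs k).2)
    have hexp : Monoid.exponent (Multiplicative
        (Gr (fun i : {i // q i ≠ p} => q i.1) (fun i => a i.1))) ∣ e' := by
      apply Monoid.exponent_dvd_of_forall_pow_eq_one
      intro g
      have h1 : e' • Multiplicative.toAdd g = 0 := by
        funext i
        show e' • (Multiplicative.toAdd g) i = 0
        rw [nsmul_eq_mul]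
        have : ((e' : ℕ) : ZMod (q i.1 ^ a i.1)) = 0 := (ZMod.natCast_eq_zero_iff _ _).2 (hd' i)
        rw [this, zero_mul]
      exact congrArg Multiplicative.ofAdd h1
    have hEX : HasEnoughRootsOfUnity E (Monoid.exponent (Multiplicative
        (Gr (fun i : {i // q i ≠ p} => q i.1) (fun i => a i.1)))) := by
      exact HasEnoughRootsOfUnity.of_dvd E hexp
    have hdim' := quot_real ψ hψ hker C hC ε hdim
    obtain ⟨g, hg, hg0, α, β, hα, hαβ, hsupp⟩ := hNl ℓ hℓ.1 hℓ.2.1 _ φ z hz (pull ψ C)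
      (inv_pull ψ hψ C hC) hdim'
    refine ⟨fun x => g (ψ x), hg, ?_, ?_⟩
    · intro h
      apply hg0
      funext y
      obtain ⟨x, rfl⟩ := hψ y
      exact congrFun h x
    · have hNe : NeZero ℓ := ⟨hℓ.1.ne_zero⟩
      apply finish ℓ (fun i => (φ i).comp ψ) (fun i => Function.surjInv hψ (z i)) ?_ K α β hα hαβ
        (fun x => g (ψ x)) (fun x hx j => hsupp (ψ x) hx j) δ
        (hKℓ ℓ hℓ.1.pos ((Nat.le_of_dvd he (hℓ.2.1.trans he'e)).trans (Nat.le_add_right _ _)))
      intro i j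
      show φ i (ψ (Function.surjInv hψ (z j))) = _
      rw [Function.surjInv_eq hψ, hz]
  · -- all these ranks are small
    push Not at hcase
    have h1 : (univ.filter (fun i : {i // q i ≠ p} => 1 ≤ a i.1)).card ≤ R := by
      rw [card_sort (fun i : {i // q i ≠ p} => q i.1) (fun i => a i.1) e' he'pos hq' hd', hR]
      exact sum_le_sum (fun ℓ hℓ => (hcase ℓ hℓ).le)
    have hB : Nat.card (Gr (fun i : {i // q i ≠ p} => q i.1) (fun i => a i.1)) ≤ e' ^ R := by
      rw [card_Gr]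
      exact (prod_le _ _ e' he'pos hd').trans (Nat.pow_le_pow_right he'pos h1)
    have h2 : R + K * m * L < (univ.filter (fun i => 1 ≤ a i)).card := by
      by_contra hcon
      push Not at hcon
      have h3 := prod_le q a e he hd
      rw [← card_Gr] at h3
      have h4 := Nat.pow_le_pow_right he hcon
      omega
    have h5 : (univ.filter (fun i => 1 ≤ a i)).card ≤
        (univ.filter (fun i : {i // q i ≠ p} => 1 ≤ a i.1)).card +
        (univ.filter (fun i => q i = p ∧ 1 ≤ a i)).card := by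
      have h6 : univ.filter (fun i => 1 ≤ a i) ⊆
          (univ.filter (fun i : {i // q i ≠ p} => 1 ≤ a i.1)).image Subtype.val ∪
          univ.filter (fun i => q i = p ∧ 1 ≤ a i) := by
        intro i hi
        rw [mem_filter] at hi
        rw [mem_union, mem_image, mem_filter]
        by_cases hqi : q i = p
        · exact Or.inr ⟨mem_univ _, hqi, hi.2⟩
        · left
          refine ⟨⟨i, hqi⟩, ?_, rfl⟩
          rw [mem_filter]
          exact ⟨mem_univ _, hi.2⟩
      exact (card_le_card h6).trans ((card_union_le _ _).trans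
        (Nat.add_le_add_right card_image_le _))
    obtain ⟨c, hc, hcs⟩ := exists_inj (κ := (Fin K × Fin m) × Fin L)
      (fun i : ι => q i = p ∧ 1 ≤ a i) (by
        rw [Fintype.card_prod, Fintype.card_prod, Fintype.card_fin, Fintype.card_fin,
          Fintype.card_fin]
        omega)
    obtain ⟨φ, z, hz, hz'⟩ := dual q a p c hc (fun k => (hcs k).1) (fun k => (hcs k).2)
    have hzψ : ∀ k, ψ (z k) = 0 := by
      intro k
      funext i
      show z k i.1 = 0
      apply hz'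
      intro h
      apply i.2
      rw [h, (hcs k).1]
    obtain ⟨f, hf, hf0, α, β, hα, hαβ, hsupp⟩ := hmL (Gr q a) _ ψ hψ hker hB φ z hz hzψ C hC hdim
    refine ⟨f, hf, hf0, ?_⟩
    exact finish p φ z hz K α β hα hαβ f hsupp δ (hKℓ p hp.pos (Nat.le_add_left _ _))

end Q123.AC
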