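import Mathlib

/-!
# Powers with a prescribed valuation
-/

namespace Q123.AC

theorem lte (ℓ R : ℕ) (hℓ : ℓ.Prime) (hR : 1 < R) (h1 : ℓ ∣ R - 1) (h4 : ℓ = 2 → 4 ∣ R - 1)
    (n : ℕ) (hn : n ≠ 0) :
    padicValNat ℓ (R ^ n - 1) = padicValNat ℓ (R - 1) + padicValNat ℓ n := by
  have hf : Fact ℓ.Prime := ⟨hℓ⟩
  have hnd : ¬ ℓ ∣ R := by
    intro h
    have h2 : ℓ ∣ R - (R - 1) := Nat.dvd_sub h h1
    have h3 : R - (R - 1) = 1 := by omega
    rw [h3] at h2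
    exact hℓ.one_lt.ne' (Nat.dvd_one.1 h2)
  rcases hℓ.eq_two_or_odd' with h2 | hodd
  · subst h2
    have h5 : (1 : ℕ) < R ^ n := Nat.one_lt_pow hn hR
    rw [← Nat.cast_inj (R := ℕ∞), Nat.cast_add]
    rw [padicValNat_eq_emultiplicity (by omega), padicValNat_eq_emultiplicity (by omega),
      padicValNat_eq_emultiplicity hn]
    have h6 := Int.two_pow_sub_pow' (x := (R : ℤ)) (y := 1) n (by
      have := h4 rfl
      obtain ⟨k, hk⟩ := this
      exact ⟨k, by omega⟩) (by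
      intro h
      exact hnd (by exact_mod_cast h))
    rw [one_pow] at h6
    have h7 : ((R : ℤ) ^ n - 1) = ((R ^ n - 1 : ℕ) : ℤ) := by
      rw [Nat.cast_sub h5.le]
      push_cast
      ring
    have h8 : ((R : ℤ) - 1) = ((R - 1 : ℕ) : ℤ) := by
      rw [Nat.cast_sub hR.le]
      push_cast
      ring
    rw [h7, h8] at h6
    have h9 : (2 : ℤ) = ((2 : ℕ) : ℤ) := rfl
    rw [h9, Int.natCast_emultiplicity, Int.natCast_emultiplicity, Int.natCast_emultiplicity] at h6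
    exact h6
  · have := padicValNat.pow_sub_pow (p := ℓ) hodd (y := 1) (x := R) hR h1 hnd hn
    rwa [one_pow] at this

theorem numbers (q ℓ : ℕ) (hℓ : ℓ.Prime) (hq : 1 < q) (hcop : ¬ ℓ ∣ q) (P : Finset ℕ) :
    ∃ v0 : ℕ, ∀ n : ℕ, n ≠ 0 → ¬ ℓ ∣ n → q.Coprime n → (∀ r, r.Prime → r ∣ n → r ∈ P) →
      ∀ u, v0 ≤ u → ∃ i : ℕ, i ≠ 0 ∧ n ∣ q ^ i - 1 ∧ padicValNat ℓ (q ^ i - 1) = u := by
  classical
  have hf : Fact ℓ.Prime := ⟨hℓ⟩
  let W := ∏ r ∈ P.filter Nat.Prime, (r - 1)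
  have hW : W ≠ 0 := by
    apply Finset.prod_ne_zero_iff.2
    intro r hr
    have := (Finset.mem_filter.1 hr).2.one_lt
    omega
  have hℓ1 := hℓ.one_lt
  let m := 2 * (ℓ - 1)
  have hm : m ≠ 0 := by
    show 2 * (ℓ - 1) ≠ 0
    omega
  let R := q ^ (W * m)
  have hR : 1 < R := Nat.one_lt_pow (Nat.mul_ne_zero hW hm) hq
  have h1 : ℓ ∣ R - 1 := by
    have h2 : q ^ (ℓ - 1) ≡ 1 [MOD ℓ] := by
      have := Nat.ModEq.pow_totient (x := q) (n := ℓ) ((hℓ.coprime_iff_not_dvd.2 hcop).symm)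
      rwa [Nat.totient_prime hℓ] at this
    have h3 : R ≡ 1 [MOD ℓ] := by
      have h4 : R = (q ^ (ℓ - 1)) ^ (W * 2) := by
        show q ^ (W * (2 * (ℓ - 1))) = _
        rw [← pow_mul]
        congr 1
        ring
      rw [h4]
      have := h2.pow (W * 2)
      rwa [one_pow] at this
    exact (Nat.modEq_iff_dvd' hR.le).1 h3.symm
  have h4 : ℓ = 2 → 4 ∣ R - 1 := by
    intro h
    subst h
    have hodd : Odd (q ^ W) := by
      apply Odd.pow
      rw [← Nat.not_even_iff_odd, even_iff_two_dvd]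
      exact hcop
    have h5 := Nat.eight_dvd_sq_sub_one_of_odd hodd
    have h6 : R = (q ^ W) ^ 2 := by
      show q ^ (W * (2 * (2 - 1))) = _
      rw [← pow_mul]
    rw [h6]
    exact Dvd.dvd.trans (by norm_num) h5
  refine ⟨padicValNat ℓ (R - 1), ?_⟩
  intro n hn hℓn hqn hP u hu
  obtain ⟨s, hs⟩ : ∃ s, u = padicValNat ℓ (R - 1) + s := ⟨u - padicValNat ℓ (R - 1), by omega⟩
  refine ⟨W * m * (n * ℓ ^ s), ?_, ?_, ?_⟩
  · exact Nat.mul_ne_zero (Nat.mul_ne_zero hW hm)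
      (Nat.mul_ne_zero hn (pow_ne_zero _ hℓ.ne_zero))
  · have h5 : n.totient ∣ W * n := by
      have h6 := Nat.totient_mul_prod_primeFactors n
      have h7 : n.totient ∣ n * ∏ p ∈ n.primeFactors, (p - 1) := ⟨_, h6.symm⟩
      refine h7.trans ?_
      rw [mul_comm]
      apply Nat.mul_dvd_mul_right
      apply Finset.prod_dvd_prod_of_subset
      intro r hr
      rw [Finset.mem_filter]
      rw [Nat.mem_primeFactors] at hr
      exact ⟨hP r hr.1 hr.2.1, hr.1⟩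
    have h6 : n.totient ∣ W * m * (n * ℓ ^ s) := by
      have : W * m * (n * ℓ ^ s) = (W * n) * (m * ℓ ^ s) := by ring
      rw [this]
      exact h5.mul_right _
    obtain ⟨k, hk⟩ := h6
    have h7 : q ^ (W * m * (n * ℓ ^ s)) ≡ 1 [MOD n] := by
      rw [hk, pow_mul]
      have := (Nat.ModEq.pow_totient hqn).pow k
      rwa [one_pow] at this
    exact (Nat.modEq_iff_dvd' (Nat.one_le_pow _ _ (by omega))).1 h7.symm
  · rw [pow_mul, lte ℓ R hℓ hR h1 h4 _ (Nat.mul_ne_zero hn (pow_ne_zero _ hℓ.ne_zero)),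
      padicValNat.mul hn (pow_ne_zero _ hℓ.ne_zero), padicValNat.eq_zero_of_not_dvd hℓn,
      padicValNat.prime_pow, zero_add, hs]

end Q123.AC
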