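import Mathlib
import Pool.Agent.Q123.AC.Base
import Pool.Agent.Q123.AC.Char
import Pool.Agent.Q123.AC.Mod
import Pool.Agent.Q123.AC.Main
import Pool.Agent.Q123.AC.Num

/-!
# Groups of large exponent prime to the characteristic
-/

namespace Q123.AC

open Finset Module

theorem ev_pow {X E : Type*} [AddCommGroup X] [Field E] (χ : Multiplicative X →* Eˣ) (k : ℕ)
    (x : X) : ev (χ ^ k) x = ev χ x ^ k := by
  rw [ev, MonoidHom.pow_apply, Units.val_pow_eq_pow_val]
  rfl

theorem ev_zero {X E : Type*} [AddCommGroup X] [Field E] (χ : Multiplicative X →* Eˣ) :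
    ev χ (0 : X) = 1 := by
  rw [ev, ofAdd_zero, map_one, Units.val_one]

theorem ev_one {X E : Type*} [AddCommGroup X] [Field E] (x : X) :
    ev (1 : Multiplicative X →* Eˣ) x = 1 := by
  rw [ev, MonoidHom.one_apply, Units.val_one]

theorem ev_nsmul {X E : Type*} [AddCommGroup X] [Field E] (χ : Multiplicative X →* Eˣ) (k : ℕ)
    (x : X) : ev χ (k • x) = ev χ x ^ k := by
  rw [ev, ofAdd_nsmul, map_pow, Units.val_pow_eq_pow_val]
  rfl

theorem ch_ext {X E : Type*} [AddCommGroup X] [Field E] (χ ψ : Multiplicative X →* Eˣ)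
    (h : ∀ x, ev χ x = ev ψ x) : χ = ψ := by
  ext x
  exact h (Multiplicative.toAdd x)

theorem ch_pow_mul {X E : Type*} [AddCommGroup X] [Field E] (χ : Multiplicative X →* Eˣ)
    (a b : ℕ) : χ ^ (a * b) = (χ ^ a) ^ b := by
  apply ch_ext
  intro x
  rw [ev_pow, ev_pow, ev_pow, pow_mul]

/-- the Fourier coefficients of a translate -/
theorem hat_shift {F E X T : Type} [Field F] [Field E] [Algebra F E] [AddCommGroup X]
    [Fintype X] (f : X → T → F) (k : X) (χ : Multiplicative X →* Eˣ) (t : T) :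
    hat (fun x => f (k + x)) χ t = ev χ k * hat f χ t := by
  rw [hat, hat, mul_sum]
  rw [← Equiv.sum_comp (Equiv.addLeft (-k))]
  refine sum_congr rfl (fun h _ => ?_)
  show ev χ (-(-k + h)) * algebraMap F E (f (k + (-k + h)) t) =
    ev χ k * (ev χ (-h) * algebraMap F E (f h t))
  rw [add_neg_cancel_left, neg_add, neg_neg, ev_add, mul_assoc]

/-- the code over the larger field is stable under the Frobenius map -/
theorem frob_mem {F E X T : Type} [Field F] [Fintype F] [Field E] [Algebra F E]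
    (C : Submodule F (X → T → F)) (w : X → T → E) (hw : w ∈ Dm (E := E) C) :
    (fun x t => w x t ^ Fintype.card F) ∈ Dm (E := E) C := by
  rw [mem_Dm]
  intro lam
  exact hw (lam.comp (FiniteField.frobeniusAlgHom F E).toLinearMap)

theorem frob_pow_mem {F E X T : Type} [Field F] [Fintype F] [Field E] [Algebra F E]
    (C : Submodule F (X → T → F)) (w : X → T → E) (hw : w ∈ Dm (E := E) C) (j : ℕ) :
    (fun x t => w x t ^ (Fintype.card F ^ j)) ∈ Dm (E := E) C := by
  induction j with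
  | zero => simpa using hw
  | succ j ih =>
    have := frob_mem C _ ih
    have e : (fun x t => w x t ^ (Fintype.card F ^ (j + 1))) =
        (fun x t => (w x t ^ (Fintype.card F ^ j)) ^ Fintype.card F) := by
      funext x t
      rw [← pow_mul, ← pow_succ]
    rw [e]
    exact this

/-- a code all whose characters have a small order is small -/
theorem small_of_orders {F E : Type} [Field F] [Field E] [Algebra F E] {Y : Type}
    [AddCommGroup Y] [Fintype Y] [HasEnoughRootsOfUnity E (Monoid.exponent (Multiplicative Y))]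
    (C : Submodule F (Y → Unit → F)) (m : ℕ)
    (h : ∀ f ∈ C, ∀ χ : Multiplicative Y →* Eˣ, hat f χ ≠ 0 → χ ^ m = 1) :
    finrank F C * Nat.card (nsmulAddMonoidHom (α := Y) m).range ≤ Nat.card Y := by
  classical
  set K := (nsmulAddMonoidHom (α := Y) m).range with hK
  have hinv : ∀ f ∈ C, ∀ y x, f (m • y + x) = f x := by
    intro f hf y x
    have h1 : (fun x => f (m • y + x)) - f = 0 := by
      apply hat_inj (E := E)
      intro χ
      funext t
      have h2 : hat ((fun x => f (m • y + x)) - f) χ t =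
          hat (fun x => f (m • y + x)) χ t - hat f χ t := by
        rw [hat, hat, hat, ← sum_sub_distrib]
        refine sum_congr rfl (fun h _ => ?_)
        rw [Pi.sub_apply, Pi.sub_apply, map_sub, mul_sub]
      rw [h2, hat_shift]
      by_cases h3 : hat f χ = 0
      · rw [h3]
        simp
      · have h4 := h f hf χ h3
        rw [ev_nsmul, ← ev_pow, h4, ev_one, one_mul, sub_self]
        rfl
    have := congrFun h1 x
    exact sub_eq_zero.1 this
  let Φ : C →ₗ[F] (Y ⧸ K → F) :=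
    { toFun := fun f q => f.1 q.out ()
      map_add' := fun _ _ => rfl
      map_smul' := fun _ _ => rfl }
  have hΦ : Function.Injective Φ := by
    intro f g hfg
    apply Subtype.ext
    funext x t
    have h1 : ∀ f ∈ C, f x = f (QuotientAddGroup.mk (s := K) x).out := by
      intro f hf
      have h2 : (QuotientAddGroup.mk (s := K) (QuotientAddGroup.mk (s := K) x).out) =
          QuotientAddGroup.mk (s := K) x := Quotient.out_eq _
      rw [QuotientAddGroup.eq] at h2
      obtain ⟨y, hy⟩ := h2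
      have hy' : m • y = -(QuotientAddGroup.mk (s := K) x).out + x := hy
      have h3 := hinv f hf y (QuotientAddGroup.mk (s := K) x).out
      rw [hy'] at h3
      rw [← h3]
      congr 1
      abel
    have h4 := congrFun hfg (QuotientAddGroup.mk (s := K) x)
    have h5 : f.1 (QuotientAddGroup.mk (s := K) x).out () =
      g.1 (QuotientAddGroup.mk (s := K) x).out () := h4
    rw [h1 f.1 f.2, h1 g.1 g.2]
    exact h5
  have h1 := LinearMap.finrank_le_finrank_of_injective hΦ
  have hfq : Fintype (Y ⧸ K) := Fintype.ofFinite _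
  rw [Module.finrank_fintype_fun_eq_card, ← Nat.card_eq_fintype_card] at h1
  rw [AddSubgroup.card_eq_card_quotient_mul_card_addSubgroup K]
  exact Nat.mul_le_mul_right _ h1

theorem bigl (F : Type) [Field F] [Finite F] (p : ℕ) [hp : Fact p.Prime] [CharP F p] (ε : ℝ)
    (hε : 0 < ε) (k : ℕ) (P : Finset ℕ) (ℓ : ℕ) (hℓ : ℓ.Prime) (hℓp : ℓ ≠ p) :
    ∃ B : ℕ, ∀ (Y : Type) [AddCommGroup Y] [Finite Y], ¬ p ∣ Nat.card Y →
      (∀ r, r.Prime → r ∣ Nat.card Y → r ∈ P) →
      ℓ ^ B ∣ Monoid.exponent (Multiplicative Y) → ∀ C : Submodule F (Y → Unit → F), Inv C →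
      ε * Nat.card Y ≤ finrank F C →
      ∃ f ∈ C, f ≠ 0 ∧ Nat.card {x // f x ≠ 0} * ℓ ^ k ≤ Nat.card Y := by
  classical
  have hFf : Fintype F := Fintype.ofFinite F
  have hℓ1 : (1 : ℝ) < ℓ := by exact_mod_cast hℓ.one_lt
  obtain ⟨c0, hc0⟩ : ∃ s : ℕ, 1 / ε < (ℓ : ℝ) ^ s := pow_unbounded_of_one_lt _ hℓ1
  have hc0' : 1 < ε * (ℓ : ℝ) ^ c0 := by
    rw [div_lt_iff₀ hε] at hc0
    linarith
  have hqp : ∃ s, Fintype.card F = p ^ s := by
    obtain ⟨n, -, hn⟩ := FiniteField.card F p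
    exact ⟨n, hn⟩
  obtain ⟨s, hqs⟩ := hqp
  have hq1 : 1 < Fintype.card F := Fintype.one_lt_card
  have hℓq : ¬ ℓ ∣ Fintype.card F := by
    rw [hqs]
    intro h
    have := hℓ.dvd_of_dvd_pow h
    exact hℓp ((Nat.prime_dvd_prime_iff_eq hℓ hp.out).1 this)
  obtain ⟨v0, hv0⟩ := numbers (Fintype.card F) ℓ hℓ hq1 hℓq P
  refine ⟨c0 + v0 + 2 * k, ?_⟩
  intro Y _ _ hpY hP hexp C hC hdim
  have hYf : Fintype Y := Fintype.ofFinite Y
  have hYpos : 0 < Nat.card Y := Nat.card_pos
  set n := Monoid.exponent (Multiplicative Y) with hn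
  have hndvd : n ∣ Nat.card Y := Group.exponent_dvd_nat_card (G := Multiplicative Y)
  have hn0 : n ≠ 0 := fun h => hYpos.ne' (Nat.eq_zero_of_zero_dvd (h ▸ hndvd))
  have hnF : (n : F) ≠ 0 := by
    intro h0
    rw [CharP.cast_eq_zero_iff F p] at h0
    exact hpY (h0.trans hndvd)
  obtain ⟨E, _, _, _, hE⟩ := exists_ext F n hnF
  have hEp : CharP E p := charP_of_injective_algebraMap (algebraMap F E).injective p
  obtain ⟨b, n', hℓn', hnb⟩ := Nat.exists_eq_pow_mul_and_not_dvd hn0 ℓ hℓ.ne_one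
  have hn'0 : n' ≠ 0 := by
    intro h
    rw [h, mul_zero] at hnb
    exact hn0 hnb
  have hbB : c0 + v0 + 2 * k ≤ b := by
    rw [hnb] at hexp
    have h1 : ℓ ^ (c0 + v0 + 2 * k) ∣ ℓ ^ b :=
      (Nat.Coprime.pow_left _ ((hℓ.coprime_iff_not_dvd).2 hℓn')).dvd_of_dvd_mul_right hexp
    exact (Nat.pow_dvd_pow_iff_le_right hℓ.one_lt).1 h1
  obtain ⟨c, hc⟩ : ∃ c, b = c + c0 := ⟨b - c0, by omega⟩
  -- a character of large order
  obtain ⟨f, hf, χ, hfχ, hχm⟩ : ∃ f ∈ C, ∃ χ : Multiplicative Y →* Eˣ, hat f χ ≠ 0 ∧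
      χ ^ (ℓ ^ c * n') ≠ 1 := by
    by_contra hcon
    push Not at hcon
    have h1 := small_of_orders (E := E) C (ℓ ^ c * n') hcon
    set K := (nsmulAddMonoidHom (α := Y) (ℓ ^ c * n')).range with hK
    have h2 : ℓ ^ c0 ∣ Nat.card K := by
      have h3 : n ∣ Nat.card K * (ℓ ^ c * n') := by
        apply Monoid.exponent_dvd_of_forall_pow_eq_one
        intro g
        have h4 : (Nat.card K) • ((ℓ ^ c * n') • Multiplicative.toAdd g) = 0 := by
          have h5 : (ℓ ^ c * n') • Multiplicative.toAdd g ∈ K := ⟨_, rfl⟩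
          have h6 := card_nsmul_eq_zero' (G := K) (x := ⟨_, h5⟩)
          exact congrArg Subtype.val h6
        rw [← mul_nsmul'] at h4
        exact congrArg Multiplicative.ofAdd h4
      rw [hnb, hc, pow_add] at h3
      have h4 : ℓ ^ c * n' * ℓ ^ c0 ∣ ℓ ^ c * n' * Nat.card K := by
        have e1 : ℓ ^ c * n' * ℓ ^ c0 = ℓ ^ c * ℓ ^ c0 * n' := by ring
        have e2 : ℓ ^ c * n' * Nat.card K = Nat.card K * (ℓ ^ c * n') := by ring
        rw [e1, e2]
        exact h3
      exact Nat.dvd_of_mul_dvd_mul_left (Nat.pos_of_ne_zero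
        (Nat.mul_ne_zero (pow_ne_zero _ hℓ.ne_zero) hn'0)) h4
    have h3 : ℓ ^ c0 ≤ Nat.card K := Nat.le_of_dvd Nat.card_pos h2
    have h4 : (finrank F C : ℝ) * (ℓ : ℝ) ^ c0 ≤ Nat.card Y := by
      have : finrank F C * ℓ ^ c0 ≤ Nat.card Y := (Nat.mul_le_mul_left _ h3).trans h1
      exact_mod_cast this
    have h5 : (0 : ℝ) < Nat.card Y := by exact_mod_cast hYpos
    have h6 : (0 : ℝ) < (ℓ : ℝ) ^ c0 := by positivity
    nlinarith
  -- its order
  have hχn : χ ^ n = 1 := by
    apply ch_ext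
    intro x
    rw [ev_pow, ev_one, ← ev_nsmul]
    have h1 : n • x = 0 := by
      have := Monoid.pow_exponent_eq_one (G := Multiplicative Y) (Multiplicative.ofAdd x)
      exact congrArg Multiplicative.toAdd this
    rw [h1, ev_zero]
  set o := orderOf χ with ho
  have ho_n : o ∣ n := orderOf_dvd_of_pow_eq_one hχn
  have ho_m : ¬ o ∣ ℓ ^ c * n' := fun h => hχm (orderOf_dvd_iff_pow_eq_one.1 h)
  have ho0 : o ≠ 0 := fun h => hn0 (Nat.eq_zero_of_zero_dvd (h ▸ ho_n))
  obtain ⟨b', o', hℓo', hob⟩ := Nat.exists_eq_pow_mul_and_not_dvd ho0 ℓ hℓ.ne_one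
  have ho'n' : o' ∣ n' := by
    have h1 : o' ∣ ℓ ^ b * n' := by
      rw [← hnb]
      exact (Dvd.intro_left _ hob.symm).trans ho_n
    exact (Nat.Coprime.pow_right _ ((hℓ.coprime_iff_not_dvd.2 hℓo').symm)).dvd_of_dvd_mul_left h1
  have hb'c : c < b' := by
    by_contra hlt
    push Not at hlt
    apply ho_m
    rw [hob]
    exact Nat.mul_dvd_mul (pow_dvd_pow _ hlt) ho'n'
  obtain ⟨u, hu⟩ : ∃ u, b' = u + k := ⟨b' - k, by omega⟩
  obtain ⟨i, hi0, hn'i, hval⟩ := hv0 n' hn'0 hℓn' (by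
      rw [hqs]
      apply Nat.Coprime.pow_left
      rw [hp.out.coprime_iff_not_dvd]
      intro h
      apply hpY
      exact (h.trans (Dvd.intro_left _ hnb.symm)).trans hndvd)
    (fun r hr hrn => hP r hr ((hrn.trans (Dvd.intro_left _ hnb.symm)).trans hndvd)) u (by omega)
  obtain ⟨Q, hQ⟩ : ∃ Q, Fintype.card F ^ i = Q := ⟨_, rfl⟩
  rw [hQ] at hn'i hval
  have hQ1 : 1 < Q := by
    rw [← hQ]
    exact Nat.one_lt_pow hi0 hq1
  have hQne : Q - 1 ≠ 0 := by omega
  have hℓf : Fact ℓ.Prime := ⟨hℓ⟩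
  have hℓu : ℓ ^ u ∣ Q - 1 := by
    have := pow_padicValNat_dvd (p := ℓ) (n := Q - 1)
    rwa [hval] at this
  have hℓu1 : ¬ ℓ ^ (u + 1) ∣ Q - 1 := by
    have := pow_succ_padicValNat_not_dvd (p := ℓ) hQne
    rwa [hval] at this
  set η := χ ^ (Q - 1) with hη
  have hη1 : η ^ (ℓ ^ k) = 1 := by
    rw [hη, ← ch_pow_mul]
    refine (orderOf_dvd_iff_pow_eq_one (x := χ)).1 ?_
    rw [← ho, hob, hu, pow_add, mul_assoc]
    have h1 : ℓ ^ u * (ℓ ^ k * o') ∣ (Q - 1) * ℓ ^ k := by
      have h2 : ℓ ^ u * o' ∣ Q - 1 := by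
        apply Nat.Coprime.mul_dvd_of_dvd_of_dvd _ hℓu (ho'n'.trans hn'i)
        exact Nat.Coprime.pow_left _ (hℓ.coprime_iff_not_dvd.2 hℓo')
      have e : ℓ ^ u * (ℓ ^ k * o') = ℓ ^ u * o' * ℓ ^ k := by ring
      rw [e]
      exact Nat.mul_dvd_mul_right h2 _
    exact h1
  have hη2 : ∀ j, j < k → η ^ (ℓ ^ j) ≠ 1 := by
    intro j hj h
    rw [hη, ← ch_pow_mul] at h
    have h1 : orderOf χ ∣ (Q - 1) * ℓ ^ j := orderOf_dvd_iff_pow_eq_one.2 h
    rw [← ho, hob, hu] at h1
    have h2 : ℓ ^ (u + k) ∣ (Q - 1) * ℓ ^ j := (Dvd.intro _ rfl).trans h1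
    apply hℓu1
    have h3 : u + k = (u + (k - j)) + j := by omega
    rw [h3, pow_add] at h2
    have h4 := Nat.dvd_of_mul_dvd_mul_right (pow_pos hℓ.pos j) h2
    exact (pow_dvd_pow ℓ (by omega : u + 1 ≤ u + (k - j))).trans h4
  have hηo : orderOf η = ℓ ^ k := by
    rcases Nat.eq_zero_or_pos k with h | h
    · subst h
      have h1 : η = 1 := by
        apply ch_ext
        intro x
        have h2 := congrArg (fun ψ : Multiplicative Y →* Eˣ => ev ψ x) hη1
        simp only [ev_pow, pow_zero, pow_one] at h2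
        exact h2
      rw [h1, pow_zero]
      exact orderOf_one
    · obtain ⟨k', rfl⟩ : ∃ k', k = k' + 1 := ⟨k - 1, by omega⟩
      exact orderOf_eq_prime_pow (hη2 k' (by omega)) hη1
  -- the character lies in the code over the larger field
  have hχmem : (fun x (_ : Unit) => ev χ x) ∈ Dm (E := E) C := by
    have h1 := hat_mem (E := E) C hC f hf χ
    have h2 : hat (E := E) f χ () ≠ 0 := by
      intro h
      apply hfχ
      funext t
      exact h
    have h3 := (Dm (E := E) C).smul_mem (hat (E := E) f χ ())⁻¹ h1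
    have e : (hat (E := E) f χ ())⁻¹ • (fun x t => ev χ x * hat f χ t) =
        (fun x (_ : Unit) => ev χ x) := by
      funext x t
      show (hat (E := E) f χ ())⁻¹ * (ev χ x * hat f χ t) = ev χ x
      have : t = () := rfl
      rw [this, mul_comm (ev χ x), ← mul_assoc, inv_mul_cancel₀ h2, one_mul]
    rwa [e] at h3
  have hpow : ∀ j, (fun x (_ : Unit) => ev χ x ^ (Q ^ j)) ∈ Dm (E := E) C := by
    intro j
    have := frob_pow_mem C _ hχmem (i * j)
    rwa [pow_mul, hQ] at this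
  have hform : ∀ j x, ev χ x ^ (Q ^ j) = ev χ x * ev η x ^ j := by
    intro j x
    -- Q ^ j = 1 + (Q - 1) * g, g ≡ j mod ℓ ^ k
    have h1 : ∃ g, Q ^ j = 1 + (Q - 1) * g ∧ g ≡ j [MOD ℓ ^ k] := by
      induction j with
      | zero => exact ⟨0, by simp, rfl⟩
      | succ j ih =>
        obtain ⟨g, hg, hgj⟩ := ih
        refine ⟨1 + Q * g, ?_, ?_⟩
        · rw [pow_succ, hg]
          obtain ⟨Q', rfl⟩ : ∃ Q', Q = Q' + 1 := ⟨Q - 1, by omega⟩
          rw [Nat.add_sub_cancel]
          ring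
        · have h2 : Q ≡ 1 [MOD ℓ ^ k] := by
            have h3 : ℓ ^ k ∣ Q - 1 := (pow_dvd_pow ℓ (by omega : k ≤ u)).trans hℓu
            exact ((Nat.modEq_iff_dvd' hQ1.le).2 h3).symm
          have h4 := (h2.mul hgj).add_left 1
          rw [one_mul, add_comm 1 j] at h4
          exact h4
    obtain ⟨g, hg, hgj⟩ := h1
    rw [hg, pow_add, pow_one, pow_mul, ← ev_pow χ (Q - 1), ← hη]
    congr 1
    have h2 : η ^ g = η ^ j := (pow_eq_pow_iff_modEq (x := η)).2 (by rw [hηo]; exact hgj)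
    rw [← ev_pow, h2, ev_pow]
  let W : Y → Unit → E := fun x _ => ev χ x * ∑ j ∈ range (ℓ ^ k), ev η x ^ j
  have hWmem : W ∈ Dm (E := E) C := by
    have e : W = ∑ j ∈ range (ℓ ^ k), (fun x (_ : Unit) => ev χ x ^ (Q ^ j)) := by
      funext x t
      rw [Finset.sum_apply, Finset.sum_apply]
      show ev χ x * _ = _
      rw [mul_sum]
      exact sum_congr rfl (fun j _ => (hform j x).symm)
    rw [e]
    exact Submodule.sum_mem _ (fun j _ => hpow j)
  have hWne : W ≠ 0 := by
    intro h0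
    have h1 : ev χ (0 : Y) * ∑ j ∈ range (ℓ ^ k), ev η (0 : Y) ^ j = 0 := congrFun (congrFun h0 0) ()
    rw [ev_zero, ev_zero, one_mul] at h1
    simp only [one_pow, sum_const, card_range, nsmul_eq_mul, mul_one] at h1
    have h2 := (CharP.cast_eq_zero_iff E p _).1 h1
    have h3 := hp.out.dvd_of_dvd_pow h2
    exact hℓp ((Nat.prime_dvd_prime_iff_eq hp.out hℓ).1 h3).symm
  have hWsupp : ∀ x, ev η x ≠ 1 → W x = 0 := by
    intro x hx
    funext t
    show ev χ x * _ = 0
    have h1 : ∑ j ∈ range (ℓ ^ k), ev η x ^ j = 0 := by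
      rw [geom_sum_eq hx, ← ev_pow, hη1, ev_one, sub_self, zero_div]
    rw [h1, mul_zero]
  obtain ⟨g, hg, hg0, hgs⟩ := descent C W hWmem hWne
  refine ⟨g, hg, hg0, ?_⟩
  have h1 : Nat.card {x // g x ≠ 0} ≤ Nat.card η.ker := by
    apply Nat.card_le_card_of_injective (fun x : {x // g x ≠ 0} =>
      (⟨Multiplicative.ofAdd x.1, by
        rw [MonoidHom.mem_ker]
        by_contra hne
        apply x.2
        apply hgs
        apply hWsupp
        intro h
        apply hne
        exact Units.ext h⟩ : η.ker))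
    intro x y hxy
    apply Subtype.ext
    exact congrArg (fun z : η.ker => Multiplicative.toAdd z.1) hxy
  have h2 : ℓ ^ k ≤ Nat.card η.range := by
    have hfr : Finite η.range := Finite.of_surjective _ η.rangeRestrict_surjective
    have h3 : η ^ Nat.card η.range = 1 := by
      apply ch_ext
      intro x
      rw [ev_pow, ev_one]
      have h4 : (⟨η (Multiplicative.ofAdd x), ⟨_, rfl⟩⟩ : η.range) ^ Nat.card η.range = 1 :=
        pow_card_eq_one'
      have h5 := congrArg (fun z : η.range => ((z.1 : Eˣ) : E)) h4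
      have h6 : ((η (Multiplicative.ofAdd x) ^ Nat.card η.range : Eˣ) : E) = 1 := h5
      rw [Units.val_pow_eq_pow_val] at h6
      exact h6
    have h4 : orderOf η ∣ Nat.card η.range := orderOf_dvd_of_pow_eq_one h3
    rw [hηo] at h4
    exact Nat.le_of_dvd Nat.card_pos h4
  have h3 : Nat.card η.ker * Nat.card η.range = Nat.card Y := by
    rw [← Subgroup.index_ker]
    exact Subgroup.card_mul_index η.ker
  calc Nat.card {x // g x ≠ 0} * ℓ ^ k ≤ Nat.card η.ker * Nat.card η.range :=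
        Nat.mul_le_mul h1 h2
    _ = Nat.card Y := h3

end Q123.AC
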