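import Mathlib
import Pool.Agent.Q123.AC.Base
import Pool.Agent.Q123.AC.Char

/-!
# A large cyclic `p`-group, `p` the characteristic
-/

namespace Q123.AC

open Finset Module

/-- the difference operator -/
def dif {R M n : Type*} [CommRing R] [AddCommGroup M] [Module R M] [AddCommGroup n] (g : n) :
    (n → M) →ₗ[R] (n → M) where
  toFun f := fun x => f (g + x) - f x
  map_add' := by
    intro f h
    funext x
    show f (g + x) + h (g + x) - (f x + h x) = (f (g + x) - f x) + (h (g + x) - h x)
    abel
  map_smul' := by
    intro c f
    funext x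
    show c • f (g + x) - c • f x = c • (f (g + x) - f x)
    rw [smul_sub]

/-- powers of an operator have small kernels -/
theorem ker_pow_le {K V : Type*} [Field K] [AddCommGroup V] [Module K V] [FiniteDimensional K V]
    (N : V →ₗ[K] V) (k : ℕ) : finrank K (LinearMap.ker (N ^ k)) ≤ k * finrank K (LinearMap.ker N) := by
  induction k with
  | zero =>
    rw [pow_zero, Nat.zero_mul]
    have : LinearMap.ker (1 : V →ₗ[K] V) = ⊥ := by
      rw [LinearMap.ker_eq_bot]
      exact fun x y h => h
    rw [this]
    simp
  | succ k ih =>
    let g : LinearMap.ker (N ^ (k + 1)) →ₗ[K] LinearMap.ker N :=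
      LinearMap.codRestrict (LinearMap.ker N) ((N ^ k).comp (LinearMap.ker (N ^ (k + 1))).subtype) (by
        rintro ⟨x, hx⟩
        rw [LinearMap.mem_ker]
        show N ((N ^ k) x) = 0
        have h1 : (N ^ (k + 1)) x = 0 := hx
        rw [pow_succ'] at h1
        exact h1)
    have h1 := LinearMap.finrank_range_add_finrank_ker g
    have h2 : finrank K (LinearMap.range g) ≤ finrank K (LinearMap.ker N) :=
      Submodule.finrank_le _
    have h3 : finrank K (LinearMap.ker g) ≤ finrank K (LinearMap.ker (N ^ k)) := by
      let h : LinearMap.ker g →ₗ[K] LinearMap.ker (N ^ k) :=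
        LinearMap.codRestrict (LinearMap.ker (N ^ k))
          ((LinearMap.ker (N ^ (k + 1))).subtype.comp (LinearMap.ker g).subtype) (by
          intro x
          rw [LinearMap.mem_ker]
          have h4 : g x.1 = 0 := x.2
          exact congrArg Subtype.val h4)
      apply LinearMap.finrank_le_finrank_of_injective (f := h)
      intro x y hxy
      apply Subtype.ext
      apply Subtype.ext
      exact congrArg (fun z : LinearMap.ker (N ^ k) => z.1) hxy
    rw [Nat.succ_mul]
    omega

/-- the operator on the functions on a product -/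
def difT {F X T : Type} [Field F] [AddCommGroup T] (u : T) :
    (X → T → F) →ₗ[F] (X → T → F) where
  toFun f := fun x t => f x (u + t) - f x t
  map_add' := by
    intro f h
    funext x t
    show f x (u + t) + h x (u + t) - (f x t + h x t) =
      (f x (u + t) - f x t) + (h x (u + t) - h x t)
    abel
  map_smul' := by
    intro c f
    funext x t
    show c * f x (u + t) - c * f x t = c * (f x (u + t) - f x t)
    ring

/-- a function on a cyclic group killed by the difference operator is constant -/
theorem const_of_dif {K : Type} [Field K] {n : ℕ} [NeZero n] (v : ZMod n → K)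
    (hv : dif (R := K) (1 : ZMod n) v = 0) : ∀ t, v t = v 0 := by
  have h1 : ∀ t, v (1 + t) = v t := fun t => sub_eq_zero.1 (congrFun hv t)
  have h2 : ∀ k : ℕ, v (k : ZMod n) = v 0 := by
    intro k
    induction k with
    | zero => simp
    | succ k ih => rw [Nat.cast_succ, add_comm, h1, ih]
  intro t
  have := h2 t.val
  rwa [ZMod.natCast_zmod_val] at this

/-- a translation invariant space of functions on a cyclic group which contains a function of
degree at least `M - 1` contains all functions of degree less than `M` -/
theorem contains {K : Type} [Field K] {n : ℕ} [NeZero n] (D : Submodule K (ZMod n → K))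
    (hD : ∀ v ∈ D, dif (R := K) (1 : ZMod n) v ∈ D) (hn : ∀ v : ZMod n → K, 
      ((dif (R := K) (1 : ZMod n)) ^ n) v = 0) (M : ℕ) (v : ZMod n → K) (hv : v ∈ D)
    (hM : ((dif (R := K) (1 : ZMod n)) ^ M) v ≠ 0) (w : ZMod n → K)
    (hw : ((dif (R := K) (1 : ZMod n)) ^ (M + 1)) w = 0) : w ∈ D := by
  classical
  set N : (ZMod n → K) →ₗ[K] (ZMod n → K) := dif (R := K) (1 : ZMod n) with hN
  have hDp : ∀ k, ∀ v ∈ D, (N ^ k) v ∈ D := by
    intro k
    induction k with
    | zero => exact fun v hv => hv
    | succ k ih =>
      intro v hv
      rw [pow_succ']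
      exact hD _ (ih v hv)
  -- the largest exponent
  obtain ⟨r, hr, hr1⟩ : ∃ r, (N ^ r) v ≠ 0 ∧ (N ^ (r + 1)) v = 0 := by
    by_contra hcon
    push Not at hcon
    have : ∀ k, (N ^ (M + k)) v ≠ 0 := by
      intro k
      induction k with
      | zero => exact hM
      | succ k ih => exact hcon _ ih
    apply this n
    rw [pow_add, Module.End.mul_apply, hn, map_zero]
  have hrM : M ≤ r := by
    by_contra hlt
    push Not at hlt
    obtain ⟨j, hj⟩ : ∃ j, M = j + (r + 1) := ⟨M - (r + 1), by omega⟩
    apply hM
    rw [hj, pow_add, Module.End.mul_apply, hr1, map_zero]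
  have hkey : ∀ k, k ≤ r + 1 → ∀ w, (N ^ k) w = 0 → w ∈ D := by
    intro k
    induction k with
    | zero =>
      intro _ w hw
      have : w = 0 := hw
      rw [this]
      exact D.zero_mem
    | succ k ih =>
      intro hk w hw
      -- the leading coefficients
      have h1 : N ((N ^ k) w) = 0 := by
        rw [pow_succ'] at hw
        exact hw
      have h2 : N ((N ^ r) v) = 0 := by
        rw [pow_succ'] at hr1
        exact hr1
      have h3 := const_of_dif _ h1
      have h4 := const_of_dif _ h2
      have h5 : ((N ^ r) v) 0 ≠ 0 := by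
        intro h0
        apply hr
        funext t
        rw [h4 t, h0]
        rfl
      set c := ((N ^ k) w) 0 / ((N ^ r) v) 0 with hc
      obtain ⟨j, hj⟩ : ∃ j, r = k + j := ⟨r - k, by omega⟩
      have h6 : (N ^ k) (w - c • (N ^ j) v) = 0 := by
        rw [map_sub, map_smul, ← Module.End.mul_apply, ← pow_add, ← hj]
        funext t
        show ((N ^ k) w) t - c * ((N ^ r) v) t = 0
        rw [h3 t, h4 t, hc, div_mul_cancel₀ _ h5, sub_self]
      have h7 := ih (by omega) _ h6
      have h8 := D.add_mem h7 (D.smul_mem c (hDp j v hv))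
      rwa [sub_add_cancel] at h8
  exact hkey (M + 1) (by omega) w hw

end Q123.AC
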