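import Mathlib
import Pool.Agent.Q123.AC.Base
import Pool.Agent.Q123.AC.Char
import Pool.Agent.Q123.AC.Mod
import Pool.Agent.Q123.AC.Main
import Pool.Agent.Q123.AC.Dee

/-!
# A large cyclic `p`-group, `p` the characteristic: light words
-/

namespace Q123.AC

open Finset Module

/-- the shift operator -/
def shi {R M n : Type*} [CommRing R] [AddCommGroup M] [Module R M] [AddCommGroup n] (g : n) :
    (n → M) →ₗ[R] (n → M) where
  toFun f := fun x => f (g + x)
  map_add' := fun _ _ => rfl
  map_smul' := fun _ _ => rfl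

theorem shi_pow {R M n : Type*} [CommRing R] [AddCommGroup M] [Module R M] [AddCommGroup n]
    (g : n) (k : ℕ) (f : n → M) (x : n) : ((shi (R := R) g) ^ k) f x = f (k • g + x) := by
  induction k generalizing x with
  | zero => simp
  | succ k ih =>
    rw [pow_succ']
    show ((shi (R := R) g) ^ k) f (g + x) = _
    rw [ih]
    congr 1
    rw [succ_nsmul]
    abel

theorem dif_pow {E : Type} [Field E] (p : ℕ) [Fact p.Prime] [CharP E p] {n : ℕ} [NeZero n]
    (a : ℕ) (v : ZMod n → E) (t : ZMod n) :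
    ((dif (R := E) (1 : ZMod n)) ^ (p ^ a)) v t = v (((p ^ a : ℕ) : ZMod n) + t) - v t := by
  have h1 : CharP (Module.End E (ZMod n → E)) p :=
    charP_of_injective_algebraMap (algebraMap E (Module.End E (ZMod n → E))).injective p
  have h2 : dif (R := E) (M := E) (1 : ZMod n) = shi (R := E) (1 : ZMod n) - 1 := by
    ext v t
    rfl
  rw [h2, sub_pow_char_pow_of_commute _ _ (Commute.one_right _), one_pow]
  show ((shi (R := E) (1 : ZMod n)) ^ p ^ a) v t - v t = _
  rw [shi_pow, nsmul_eq_mul, mul_one]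

/-- the same as `descent`, coordinate by coordinate -/
theorem descent2 {F E X T : Type} [Field F] [Field E] [Algebra F E] (C : Submodule F (X → T → F))
    (w : X → T → E) (hw : w ∈ Dm (E := E) C) (hne : w ≠ 0) :
    ∃ f ∈ C, f ≠ 0 ∧ ∀ x t, w x t = 0 → f x t = 0 := by
  obtain ⟨x, t, hxt⟩ : ∃ x t, w x t ≠ 0 := by
    by_contra h
    push Not at h
    exact hne (by funext x t; exact h x t)
  obtain ⟨lam, hlam⟩ : ∃ lam : E →ₗ[F] F, lam (w x t) ≠ 0 := by
    by_contra h
    push Not at h
    exact hxt ((Module.forall_dual_apply_eq_zero_iff F _).1 h)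
  refine ⟨_, hw lam, ?_, ?_⟩
  · intro h
    exact hlam (congrFun (congrFun h x) t)
  · intro x t hx
    show lam (w x t) = 0
    rw [hx]
    exact map_zero lam

theorem bigp (F : Type) [Field F] [Finite F] (p : ℕ) [hp : Fact p.Prime] [CharP F p] (ε : ℝ)
    (hε : 0 < ε) (k : ℕ) : ∃ B : ℕ, ∀ b : ℕ, B ≤ b → ∀ (Y : Type) [AddCommGroup Y] [Finite Y],
      ¬ p ∣ Nat.card Y → ∀ C : Submodule F (Y → ZMod (p ^ b) → F),
      (∀ (g : Y) (u : ZMod (p ^ b)), ∀ f ∈ C, (fun x t => f (g + x) (u + t)) ∈ C) →
      ε * (Nat.card Y * p ^ b : ℕ) ≤ finrank F C →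
      ∃ f ∈ C, f ≠ 0 ∧
        Nat.card {z : Y × ZMod (p ^ b) // f z.1 z.2 ≠ 0} * p ^ k ≤ Nat.card Y * p ^ b := by
  classical
  have hp1 : (1 : ℝ) < p := by exact_mod_cast hp.out.one_lt
  obtain ⟨s, hs⟩ : ∃ s : ℕ, 1 / ε < (p : ℝ) ^ s := pow_unbounded_of_one_lt _ hp1
  have hs' : 1 < ε * (p : ℝ) ^ s := by
    rw [div_lt_iff₀ hε] at hs
    linarith
  refine ⟨s + k, ?_⟩
  intro b hb Y _ _ hpY C hC hdim
  obtain ⟨c, hc⟩ : ∃ c, b = c + s := ⟨b - s, by omega⟩
  have hck : k ≤ c := by omega
  have hne : NeZero (p ^ b) := ⟨pow_ne_zero _ hp.out.ne_zero⟩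
  have hYf : Fintype Y := Fintype.ofFinite Y
  have hYpos : 0 < Nat.card Y := Nat.card_pos
  obtain ⟨M, hM⟩ : ∃ M, p ^ c = M + 1 := ⟨p ^ c - 1, by have := hp.out.pos; have := pow_pos this c; omega⟩
  -- a word which is not killed by the power
  let N : (Y → ZMod (p ^ b) → F) →ₗ[F] (Y → ZMod (p ^ b) → F) := difT (1 : ZMod (p ^ b))
  have hker : finrank F (LinearMap.ker N) ≤ Nat.card Y := by
    let g : LinearMap.ker N →ₗ[F] (Y → F) :=
      { toFun := fun f x => f.1 x 0
        map_add' := fun _ _ => rfl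
        map_smul' := fun _ _ => rfl }
    have hg : Function.Injective g := by
      intro f h hfh
      apply Subtype.ext
      funext x t
      have h1 : dif (R := F) (1 : ZMod (p ^ b)) (f.1 x) = 0 := by
        have := f.2
        rw [LinearMap.mem_ker] at this
        exact congrFun this x
      have h2 : dif (R := F) (1 : ZMod (p ^ b)) (h.1 x) = 0 := by
        have := h.2
        rw [LinearMap.mem_ker] at this
        exact congrFun this x
      rw [const_of_dif _ h1, const_of_dif _ h2]
      exact congrFun hfh x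
    have h1 := LinearMap.finrank_le_finrank_of_injective hg
    rwa [Module.finrank_fintype_fun_eq_card, ← Nat.card_eq_fintype_card] at h1
  obtain ⟨f, hf, hfM⟩ : ∃ f ∈ C, (N ^ M) f ≠ 0 := by
    by_contra hcon
    push Not at hcon
    have h1 : C ≤ LinearMap.ker (N ^ M) := fun f hf => hcon f hf
    have h2 := (Submodule.finrank_mono h1).trans (ker_pow_le N M)
    have h3 : (finrank F C : ℝ) ≤ M * Nat.card Y := by
      have : finrank F C ≤ M * Nat.card Y := h2.trans (Nat.mul_le_mul_left _ hker)
      exact_mod_cast this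
    have h4 : (Nat.card Y : ℝ) * (p : ℝ) ^ c < ε * (Nat.card Y * p ^ b : ℕ) := by
      rw [hc, pow_add]
      push_cast
      have h5 : (0 : ℝ) < (Nat.card Y : ℝ) * (p : ℝ) ^ c := by
        have : (0 : ℝ) < Nat.card Y := by exact_mod_cast hYpos
        positivity
      nlinarith
    have h6 : (p : ℝ) ^ c = M + 1 := by exact_mod_cast hM
    rw [h6] at h4
    have h7 : (0 : ℝ) < Nat.card Y := by exact_mod_cast hYpos
    nlinarith
  -- the extension
  have hexpF : ((Monoid.exponent (Multiplicative Y) : ℕ) : F) ≠ 0 := by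
    intro h0
    rw [CharP.cast_eq_zero_iff F p] at h0
    apply hpY
    have h1 : Monoid.exponent (Multiplicative Y) ∣ Nat.card (Multiplicative Y) :=
      Group.exponent_dvd_nat_card
    exact h0.trans h1
  obtain ⟨E, _, _, _, hE⟩ := exists_ext F _ hexpF
  have hEp : CharP E p := charP_of_injective_algebraMap (algebraMap F E).injective p
  obtain ⟨χ, hχ⟩ : ∃ χ : Multiplicative Y →* Eˣ, hat ((N ^ M) f) χ ≠ 0 := by
    by_contra hcon
    push Not at hcon
    exact hfM (hat_inj (E := E) _ hcon)
  have hhat1 : ∀ g : Y → ZMod (p ^ b) → F, hat (N g) χ =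
      dif (R := E) (1 : ZMod (p ^ b)) (hat g χ) := by
    intro g
    funext t
    show ∑ h : Y, ev χ (-h) * algebraMap F E (g h (1 + t) - g h t) =
      (∑ h : Y, ev χ (-h) * algebraMap F E (g h (1 + t))) -
        ∑ h : Y, ev χ (-h) * algebraMap F E (g h t)
    rw [← sum_sub_distrib]
    refine sum_congr rfl (fun h _ => ?_)
    rw [map_sub, mul_sub]
  have hhat : ∀ j (g : Y → ZMod (p ^ b) → F), hat ((N ^ j) g) χ =
      ((dif (R := E) (1 : ZMod (p ^ b))) ^ j) (hat g χ) := by
    intro j
    induction j with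
    | zero => exact fun g => rfl
    | succ j ih =>
      intro g
      rw [pow_succ', pow_succ']
      show hat (N ((N ^ j) g)) χ = dif (R := E) (1 : ZMod (p ^ b)) _
      rw [hhat1, ih]
  rw [hhat] at hχ
  -- the component
  let D : Submodule E (ZMod (p ^ b) → E) :=
    { carrier := {v | (fun x t => ev χ x * v t) ∈ Dm (E := E) C}
      add_mem' := by
        intro v w hv hw
        have := (Dm (E := E) C).add_mem hv hw
        have e : (fun x t => ev χ x * (v + w) t) = (fun x t => ev χ x * v t) +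
            (fun (x : Y) t => ev χ x * w t) := by
          funext x t
          exact mul_add _ _ _
        show (fun x t => ev χ x * (v + w) t) ∈ Dm (E := E) C
        rw [e]
        exact this
      zero_mem' := by
        have e : (fun (x : Y) t => ev χ x * (0 : ZMod (p ^ b) → E) t) = 0 := by
          funext x t
          exact mul_zero _
        show (fun (x : Y) t => ev χ x * (0 : ZMod (p ^ b) → E) t) ∈ Dm (E := E) C
        rw [e]
        exact (Dm (E := E) C).zero_mem
      smul_mem' := by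
        intro c v hv
        have := (Dm (E := E) C).smul_mem c hv
        have e : (fun (x : Y) t => ev χ x * (c • v) t) = c • (fun x t => ev χ x * v t) := by
          funext x t
          show ev χ x * (c * v t) = c * (ev χ x * v t)
          ring
        show (fun (x : Y) t => ev χ x * (c • v) t) ∈ Dm (E := E) C
        rw [e]
        exact this }
  have hDdif : ∀ v ∈ D, dif (R := E) (1 : ZMod (p ^ b)) v ∈ D := by
    intro v hv
    have h1 : (fun x t => ev χ x * v (1 + t)) ∈ Dm (E := E) C := by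
      rw [mem_Dm]
      intro lam
      have h2 := hC 0 1 _ (hv lam)
      simp only [zero_add] at h2
      exact h2
    have h2 := (Dm (E := E) C).sub_mem h1 hv
    have e : (fun x t => ev χ x * (dif (R := E) (1 : ZMod (p ^ b)) v) t) =
        (fun x t => ev χ x * v (1 + t)) - (fun (x : Y) t => ev χ x * v t) := by
      funext x t
      exact mul_sub _ _ _
    show (fun x t => ev χ x * (dif (R := E) (1 : ZMod (p ^ b)) v) t) ∈ Dm (E := E) C
    rw [e]
    exact h2
  have hCinv : Inv C := by
    intro g f hf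
    have h1 := hC g 0 f hf
    simp only [zero_add] at h1
    exact h1
  have hfD : hat f χ ∈ D := hat_mem C hCinv f hf χ
  -- the indicator function of the subgroup
  have hdvd : p ^ c ∣ p ^ b := pow_dvd_pow _ (by omega)
  let ρ : ZMod (p ^ b) →+ ZMod (p ^ c) := (ZMod.castHom hdvd (ZMod (p ^ c))).toAddMonoidHom
  let w : ZMod (p ^ b) → E := fun t => if ρ t = 0 then 1 else 0
  have hwD : w ∈ D := by
    apply contains D hDdif ?_ M (hat f χ) hfD hχ w ?_
    · intro v
      funext t
      rw [dif_pow p]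
      have : ((p ^ b : ℕ) : ZMod (p ^ b)) = 0 := ZMod.natCast_self _
      rw [this, zero_add, sub_self]
      rfl
    · rw [← hM]
      funext t
      rw [dif_pow p]
      have h1 : ρ (((p ^ c : ℕ) : ZMod (p ^ b)) + t) = ρ t := by
        rw [map_add]
        have h2 : ρ ((p ^ c : ℕ) : ZMod (p ^ b)) = 0 := by
          show ZMod.castHom hdvd (ZMod (p ^ c)) ((p ^ c : ℕ) : ZMod (p ^ b)) = 0
          rw [map_natCast]
          exact ZMod.natCast_self _
        rw [h2, zero_add]
      show (if ρ _ = 0 then (1 : E) else 0) - (if ρ t = 0 then (1 : E) else 0) = 0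
      rw [h1, sub_self]
  have hWne : (fun (x : Y) t => ev χ x * w t) ≠ 0 := by
    intro h0
    have h1 : ev χ (0 : Y) * w 0 = 0 := congrFun (congrFun h0 0) 0
    have h2 : w 0 = 1 := if_pos (map_zero ρ)
    rw [h2, mul_one] at h1
    exact ev_ne _ _ h1
  obtain ⟨g, hg, hg0, hgs⟩ := descent2 C _ hwD hWne
  refine ⟨g, hg, hg0, ?_⟩
  have h1 : Nat.card {z : Y × ZMod (p ^ b) // g z.1 z.2 ≠ 0} ≤ Nat.card (Y × ρ.ker) := by
    apply Nat.card_le_card_of_injective (fun z : {z : Y × ZMod (p ^ b) // g z.1 z.2 ≠ 0} =>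
      ((z.1.1, ⟨z.1.2, by
        rw [AddMonoidHom.mem_ker]
        by_contra hne
        apply z.2
        apply hgs
        show ev χ z.1.1 * w z.1.2 = 0
        have : w z.1.2 = 0 := if_neg hne
        rw [this, mul_zero]⟩) : Y × ρ.ker))
    intro y z hyz
    apply Subtype.ext
    apply Prod.ext
    · exact congrArg (fun q : Y × ρ.ker => q.1) hyz
    · exact congrArg (fun q : Y × ρ.ker => q.2.1) hyz
  have h2 : Nat.card ρ.ker * p ^ c = p ^ b := by
    have h3 := card_of_surj ρ (ZMod.castHom_surjective hdvd)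
    rw [Nat.card_zmod, Nat.card_zmod] at h3
    exact h3.symm
  rw [Nat.card_prod] at h1
  calc Nat.card {z : Y × ZMod (p ^ b) // g z.1 z.2 ≠ 0} * p ^ k
      ≤ (Nat.card Y * Nat.card ρ.ker) * p ^ c :=
        Nat.mul_le_mul h1 (Nat.pow_le_pow_right hp.out.pos hck)
    _ = Nat.card Y * (Nat.card ρ.ker * p ^ c) := by ring
    _ = Nat.card Y * p ^ b := by rw [h2]

end Q123.AC
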