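import Mathlib
import Pool.Agent.Q123.AC.Base
import Pool.Agent.Q123.AC.Mod
import Pool.Agent.Q123.AC.Struct
import Pool.Agent.Q123.AC.Main

/-!
# From products of cyclic groups to groups which are abelian of bounded exponent modulo a
normal `p`-subgroup
-/

namespace Q123.AC

open Finset Module

theorem mainA (F : Type) [Field F] [Finite F] (e : ℕ) (he : 0 < e) (T : Type) [Finite T]
    (ε δ : ℝ) (hε : 0 < ε) (hδ : 0 < δ) : ∃ N : ℕ, ∀ (A : Type) [AddCommGroup A] [Finite A],
      (∀ x : A, e • x = 0) → N ≤ Nat.card A →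
      ∀ C : Submodule F (A → T → F), Inv C → ε * Nat.card A ≤ finrank F C →
      ∃ f ∈ C, f ≠ 0 ∧ (Nat.card {x // f x ≠ 0} : ℝ) ≤ δ * Nat.card A := by
  classical
  obtain ⟨N, hN⟩ := mainX F e he T ε δ hε hδ
  refine ⟨N, ?_⟩
  intro A _ _ hexp hcard C hC hdim
  obtain ⟨p, hpF⟩ := CharP.exists F
  have hp : p.Prime := by
    rcases CharP.char_is_prime_or_zero F p with h | h
    · exact h
    · subst h
      have : CharZero F := CharP.charP_to_charZero F
      exact absurd ‹Finite F› (by
        rw [not_finite_iff_infinite]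
        exact Infinite.of_injective (fun n : ℕ => (n : F)) Nat.cast_injective)
  have hpf : Fact p.Prime := ⟨hp⟩
  obtain ⟨ι, _, q, hq, a, ⟨Θ0⟩⟩ := AddCommGroup.equiv_directSum_zmod_of_finite A
  let Θ : A ≃+ Gr q a := Θ0.trans (DirectSum.addEquivProd (fun i => ZMod (q i ^ a i)))
  have hcA : Nat.card A = Nat.card (Gr q a) := Nat.card_congr Θ.toEquiv
  have hd : ∀ i, q i ^ a i ∣ e := by
    intro i
    have h1 : e • (Pi.single i 1 : Gr q a) = 0 := by
      have h2 := hexp (Θ.symm (Pi.single i 1))
      have h3 := congrArg Θ h2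
      rw [map_nsmul, AddEquiv.apply_symm_apply, map_zero] at h3
      exact h3
    have h2 := congrFun h1 i
    rw [Pi.smul_apply, Pi.single_eq_same, Pi.zero_apply, nsmul_eq_mul, mul_one] at h2
    exact (ZMod.natCast_eq_zero_iff _ _).1 h2
  have hsurj : Function.Surjective (Θ : A →+ Gr q a) := Θ.surjective
  have hker : ∃ k, Nat.card ((Θ : A →+ Gr q a)).ker = p ^ k := by
    refine ⟨0, ?_⟩
    have : (Θ : A →+ Gr q a).ker = ⊥ := by
      rw [AddMonoidHom.ker_eq_bot_iff]
      exact Θ.injective
    rw [this, pow_zero]
    simp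
  have hdim' := quot_real (Θ : A →+ Gr q a) hsurj hker C hC ε hdim
  rw [hcA] at hcard
  obtain ⟨g, hg, hg0, hgw⟩ := hN ι q a hq hd hcard (pull (Θ : A →+ Gr q a) C)
    (inv_pull _ hsurj C hC) hdim'
  refine ⟨fun x => g (Θ x), hg, ?_, ?_⟩
  · intro h
    apply hg0
    funext y
    obtain ⟨x, rfl⟩ := Θ.surjective y
    exact congrFun h x
  · rw [hcA]
    refine le_trans (le_of_eq ?_) hgw
    congr 1
    exact Nat.card_congr (Θ.toEquiv.subtypeEquiv (fun x => Iff.rfl))

section

variable {F G Q V : Type*} [Field F] [Finite F] [Group G] [Finite G] [Group Q]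
  [AddCommGroup V] [Module F V] [Finite V]

/-- the dimension drops at most by the factor `|ker π|` -/
theorem quotG {p : ℕ} [hp : Fact p.Prime] [CharP F p] (π : G →* Q) (hπ : Function.Surjective π)
    (hk : IsPGroup p π.ker) (C : Submodule F (G → V))
    (hC : ∀ g : G, ∀ f ∈ C, (fun x => f (g * x)) ∈ C) :
    finrank F C ≤ Nat.card π.ker * finrank F (pull π C) := by
  classical
  have hYf : Finite Q := Finite.of_surjective π hπ
  set σ : Q → G := Function.surjInv hπ with hσ
  have hπσ : ∀ y, π (σ y) = y := fun y => Function.surjInv_eq hπ y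
  obtain ⟨lam, hlam⟩ := LinearMap.exists_leftInverse_of_injective (pull π C).subtype
    (Submodule.ker_subtype _)
  have hlam' : ∀ g : pull π C, lam g.1 = g := fun g => by
    have := congrArg (fun h => h g) hlam
    simpa using this
  -- the equivariant map
  let Φ : C →ₗ[F] (π.ker → pull π C) :=
    { toFun := fun f n => lam (fun y => f.1 (n.1 * σ y))
      map_add' := by
        intro f g
        funext n
        show lam (fun y => f.1 (n.1 * σ y) + g.1 (n.1 * σ y)) = _
        rw [show (fun y => f.1 (n.1 * σ y) + g.1 (n.1 * σ y)) =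
          (fun y => f.1 (n.1 * σ y)) + (fun y => g.1 (n.1 * σ y)) from rfl, map_add]
        rfl
      map_smul' := by
        intro c f
        funext n
        show lam (fun y => c • f.1 (n.1 * σ y)) = _
        rw [show (fun y => c • f.1 (n.1 * σ y)) = c • (fun y => f.1 (n.1 * σ y)) from rfl,
          map_smul]
        rfl }
  have hinj : Function.Injective Φ := by
    rw [← LinearMap.ker_eq_bot]
    by_contra hne
    -- the finite set on which the kernel acts
    let K : Submodule F C := LinearMap.ker Φ
    have hKfin : Finite K := inferInstance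
    have hmemK : ∀ f : C, f ∈ K ↔ ∀ n : π.ker, lam (fun y => f.1 (n.1 * σ y)) = 0 := by
      intro f
      rw [LinearMap.mem_ker]
      exact funext_iff
    let act : π.ker → K → K := fun n f =>
      ⟨⟨fun x => f.1.1 ((n⁻¹ : π.ker).1 * x), hC _ _ f.1.2⟩, by
        rw [hmemK]
        intro m
        have := (hmemK f.1).1 f.2 (n⁻¹ * m)
        simpa [mul_assoc] using this⟩
    let _inst : MulAction π.ker K :=
      { smul := act
        one_smul := by
          intro f
          apply Subtype.ext
          apply Subtype.ext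
          funext x
          show f.1.1 ((1 : π.ker)⁻¹.1 * x) = f.1.1 x
          rw [inv_one]
          show f.1.1 (1 * x) = f.1.1 x
          rw [one_mul]
        mul_smul := by
          intro a b f
          apply Subtype.ext
          apply Subtype.ext
          funext x
          show f.1.1 (((a * b)⁻¹ : π.ker).1 * x) =
            f.1.1 ((b⁻¹ : π.ker).1 * ((a⁻¹ : π.ker).1 * x))
          rw [mul_inv_rev, ← mul_assoc]
          rfl }
    have hdvd : p ∣ Nat.card K := by
      have h1 : Nat.card K = Nat.card F ^ finrank F K := by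
        exact Module.natCard_eq_pow_finrank (K := F) (V := K)
      have h2 : 0 < finrank F K := by
        have : Nontrivial K := Submodule.nontrivial_iff_ne_bot.2 hne
        rw [Nat.pos_iff_ne_zero]
        intro h0
        have : Subsingleton K := Module.finrank_zero_iff.1 h0
        exact not_subsingleton K this
      rw [h1]
      have h3 : p ∣ Nat.card F := by
        have : Fintype F := Fintype.ofFinite F
        obtain ⟨n, -, hn⟩ := FiniteField.card F p
        rw [Nat.card_eq_fintype_card, hn]
        exact dvd_pow_self p n.ne_zero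
      exact dvd_pow h3 h2.ne'
    have h0 : (0 : K) ∈ MulAction.fixedPoints π.ker K := by
      intro n
      apply Subtype.ext
      apply Subtype.ext
      rfl
    obtain ⟨f, hf, hf0⟩ := hk.exists_fixed_point_of_prime_dvd_card_of_fixed_point K hdvd h0
    have hfix : ∀ n : π.ker, ∀ x, f.1.1 (n.1 * x) = f.1.1 x := by
      intro n x
      have := hf n⁻¹
      have h2 := congrArg (fun z : K => z.1.1 x) this
      have h3 : f.1.1 (((n⁻¹)⁻¹ : π.ker).1 * x) = f.1.1 x := h2
      rwa [inv_inv] at h3
    let g : Q → V := fun y => f.1.1 (σ y)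
    have hg : (fun x => g (π x)) = f.1.1 := by
      funext x
      show f.1.1 (σ (π x)) = f.1.1 x
      have hm : σ (π x) * x⁻¹ ∈ π.ker := by
        rw [MonoidHom.mem_ker, map_mul, hπσ, map_inv, mul_inv_cancel]
      have := hfix ⟨_, hm⟩ x
      simpa using this
    have hgC : g ∈ pull π C := by
      rw [mem_pull, hg]
      exact f.1.2
    have h1 := (hmemK f.1).1 f.2 1
    have h2 : lam g = ⟨g, hgC⟩ := hlam' ⟨g, hgC⟩
    have h3 : lam g = 0 := by simpa using h1
    have h4 : g = 0 := by
      have := h2.symm.trans h3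
      exact congrArg Subtype.val this
    apply hf0
    apply Subtype.ext
    apply Subtype.ext
    rw [← hg, h4]
    rfl
  have h1 := LinearMap.finrank_le_finrank_of_injective hinj
  have : Fintype π.ker := Fintype.ofFinite _
  rwa [Module.finrank_pi_fintype, Finset.sum_const, Finset.card_univ, smul_eq_mul,
    ← Nat.card_eq_fintype_card] at h1

end

/-- codes on the group itself -/
theorem mainG (F : Type) [Field F] [Finite F] (e : ℕ) (he : 0 < e) (T : Type) [Finite T]
    (ε δ : ℝ) (hε : 0 < ε) (hδ : 0 < δ) : ∃ N : ℕ, ∀ (G : Type) [Group G] [Finite G]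
      (H : Subgroup G) [H.Normal], IsPGroup (ringChar F) H → (∀ a b : G, a * b * a⁻¹ * b⁻¹ ∈ H) →
      (∀ a : G, a ^ e ∈ H) → N ≤ H.index →
      ∀ C : Submodule F (G → T → F), (∀ g : G, ∀ f ∈ C, (fun x => f (g * x)) ∈ C) →
      ε * Nat.card G ≤ finrank F C →
      ∃ f ∈ C, f ≠ 0 ∧ (Nat.card {x // f x ≠ 0} : ℝ) ≤ δ * Nat.card G := by
  classical
  obtain ⟨N, hN⟩ := mainA F e he T ε δ hε hδ
  refine ⟨N, ?_⟩
  intro G _ _ H _ hH hcomm hexp hcard C hC hdim
  have hp : (ringChar F).Prime := by
    rcases CharP.char_is_prime_or_zero F (ringChar F) with h | h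
    · exact h
    · have : CharZero F := by
        have h1 := ringChar.charP F
        rw [h] at h1
        exact CharP.charP_to_charZero F
      exact absurd ‹Finite F› (by
        rw [not_finite_iff_infinite]
        exact Infinite.of_injective (fun n : ℕ => (n : F)) Nat.cast_injective)
  have hpf : Fact (ringChar F).Prime := ⟨hp⟩
  let Q := G ⧸ H
  let _inst : CommGroup Q :=
    { (inferInstance : Group (G ⧸ H)) with
      mul_comm := by
        intro x y
        induction x using QuotientGroup.induction_on with
        | H a =>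
          induction y using QuotientGroup.induction_on with
          | H b =>
            have h1 := hcomm b⁻¹ a⁻¹
            have h2 : ((a * b : G) : G ⧸ H) = ((b * a : G) : G ⧸ H) := by
              rw [QuotientGroup.eq]
              have h3 : (a * b)⁻¹ * (b * a) = b⁻¹ * a⁻¹ * b⁻¹⁻¹ * a⁻¹⁻¹ := by group
              rw [h3]
              exact h1
            exact h2 }
  let π : G →* Q := QuotientGroup.mk' H
  have hπ : Function.Surjective π := QuotientGroup.mk'_surjective H
  have hkerπ : π.ker = H := QuotientGroup.ker_mk' H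
  have hQ : Nat.card Q = H.index := rfl
  have hdimQ : ε * Nat.card Q ≤ finrank F (pull π C) := by
    have h1 := quotG π hπ (by rw [hkerπ]; exact hH) C hC
    rw [hkerπ] at h1
    have h2 : Nat.card G = Nat.card H * Nat.card Q := (Subgroup.card_mul_index H).symm
    have h3 : (0 : ℝ) < Nat.card H := by exact_mod_cast Nat.card_pos
    have h4 : (finrank F C : ℝ) ≤ Nat.card H * finrank F (pull π C) := by exact_mod_cast h1
    rw [h2, Nat.cast_mul] at hdim
    have h5 : (Nat.card H : ℝ) * (ε * Nat.card Q) ≤ Nat.card H * finrank F (pull π C) := by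
      calc (Nat.card H : ℝ) * (ε * Nat.card Q) = ε * (Nat.card H * Nat.card Q) := by ring
        _ ≤ _ := hdim.trans h4
    exact le_of_mul_le_mul_left h5 h3
  obtain ⟨g, hg, hg0, hgw⟩ := hN (Additive Q) (by
      intro x
      obtain ⟨y, hy⟩ := hπ (Additive.toMul x)
      have h1 : (Additive.toMul x) ^ e = 1 := by
        rw [← hy, ← map_pow]
        have : y ^ e ∈ π.ker := by
          rw [hkerπ]
          exact hexp y
        exact this
      exact congrArg Additive.ofMul h1) hcard (pull π C) (by
      intro x f hf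
      obtain ⟨y, hy⟩ := hπ (Additive.toMul x)
      have h1 := hC y _ hf
      have h2 : (fun x_1 : G => f (π (y * x_1))) ∈ C := h1
      have h3 : (fun x_1 : G => f (π (y * x_1))) = fun z => f (π y * π z) := by
        funext z
        rw [map_mul]
      rw [h3, hy] at h2
      exact h2) hdimQ
  refine ⟨fun x => g (π x), hg, ?_, ?_⟩
  · intro h
    apply hg0
    funext y
    obtain ⟨x, hx⟩ := hπ (Additive.toMul y)
    have := congrFun h x
    have h2 : g (π x) = 0 := this
    rw [hx] at h2
    exact h2
  · -- the weight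
    have h2 : Nat.card G = Nat.card H * Nat.card Q := (Subgroup.card_mul_index H).symm
    have h3 : Nat.card {x : G // g (π x) ≠ 0} = Nat.card H * Nat.card {y : Q // g y ≠ 0} := by
      let τ : G ≃ H × Q := (Subgroup.groupEquivQuotientProdSubgroup (s := H)).trans
        (Equiv.prodComm _ _)
      have hτ : ∀ x, (τ x).2 = π x := by
        intro x
        rfl
      have e1 : {x : G // g (π x) ≠ 0} ≃ {z : H × Q // g z.2 ≠ 0} :=
        τ.subtypeEquiv (fun x => by rw [hτ])
      have e2 : {z : H × Q // g z.2 ≠ 0} ≃ H × {y : Q // g y ≠ 0} :=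
        { toFun := fun z => (z.1.1, ⟨z.1.2, z.2⟩)
          invFun := fun z => ⟨(z.1, z.2.1), z.2.2⟩
          left_inv := fun z => rfl
          right_inv := fun z => rfl }
      rw [Nat.card_congr (e1.trans e2), Nat.card_prod]
    rw [h3, h2]
    push_cast
    have h4 : (0 : ℝ) ≤ Nat.card H := Nat.cast_nonneg _
    calc (Nat.card H : ℝ) * Nat.card {y : Q // g y ≠ 0} ≤
        Nat.card H * (δ * Nat.card Q) := mul_le_mul_of_nonneg_left hgw h4
      _ = δ * (Nat.card H * Nat.card Q) := by ring

end Q123.AC
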