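import Mathlib
import Pool.Agent.Q123.AC.Base
import Pool.Agent.Q123.AC.Mod
import Pool.Agent.Q123.AC.Struct
import Pool.Agent.Q123.AC.Main
import Pool.Agent.Q123.AC.Grp
import Pool.Agent.Q123.AC.Dee2
import Pool.Agent.Q123.AC.Big

/-!
# Groups whose order has only primes from a given finite set
-/

namespace Q123.AC

open Finset Module

theorem card_fiber {X Y : Type} [AddCommGroup X] [AddCommGroup Y] (π : X →+ Y)
    (hπ : Function.Surjective π) (s : Y → Prop) :
    Nat.card {x // s (π x)} = Nat.card π.ker * Nat.card {y // s y} := by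
  rw [← Nat.card_prod]
  apply Nat.card_congr
  exact
    { toFun := fun x => (⟨x.1 - Function.surjInv hπ (π x.1), by
        rw [AddMonoidHom.mem_ker, map_sub, Function.surjInv_eq hπ, sub_self]⟩, ⟨π x.1, x.2⟩)
      invFun := fun z => ⟨z.1.1 + Function.surjInv hπ z.2.1, by
        have h1 : π z.1.1 = 0 := z.1.2
        rw [map_add, h1, Function.surjInv_eq hπ, zero_add]
        exact z.2.2⟩
      left_inv := by
        intro x
        apply Subtype.ext
        exact sub_add_cancel _ _
      right_inv := by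
        rintro ⟨⟨n, hn⟩, ⟨y, hy⟩⟩
        have h1 : π n = 0 := hn
        have h2 : π (n + Function.surjInv hπ y) = y := by
          rw [map_add, h1, Function.surjInv_eq hπ, zero_add]
        apply Prod.ext
        · apply Subtype.ext
          show n + Function.surjInv hπ y - Function.surjInv hπ (π (n + Function.surjInv hπ y)) = n
          rw [h2, add_sub_cancel_right]
        · apply Subtype.ext
          exact h2 }

theorem mainXS (F : Type) [Field F] [Finite F] (P : Finset ℕ) (ε δ : ℝ) (hε : 0 < ε)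
    (hδ : 0 < δ) : ∃ N : ℕ, ∀ (ι : Type) [Fintype ι] (q a : ι → ℕ),
      (∀ i, (q i).Prime) → (∀ i, 1 ≤ a i → q i ∈ P) → N ≤ Nat.card (Gr q a) →
      ∀ C : Submodule F (Gr q a → Unit → F), Inv C → ε * Nat.card (Gr q a) ≤ finrank F C →
      ∃ f ∈ C, f ≠ 0 ∧ (Nat.card {x // f x ≠ 0} : ℝ) ≤ δ * Nat.card (Gr q a) := by
  classical
  obtain ⟨p, hpF⟩ := CharP.exists F
  have hp : p.Prime := by
    rcases CharP.char_is_prime_or_zero F p with h | h
    · exact h
    · subst h
      have : CharZero F := CharP.charP_to_charZero F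
      exact absurd ‹Finite F› (by
        rw [not_finite_iff_infinite]
        exact Infinite.of_injective (fun n : ℕ => (n : F)) Nat.cast_injective)
  have hpf : Fact p.Prime := ⟨hp⟩
  obtain ⟨k, hk⟩ : ∃ k : ℕ, 1 / δ < (2 : ℝ) ^ k := pow_unbounded_of_one_lt _ one_lt_two
  have hkℓ : ∀ ℓ : ℕ, 2 ≤ ℓ → ∀ w n : ℕ, w * ℓ ^ k ≤ n → (w : ℝ) ≤ δ * n := by
    intro ℓ hℓ w n h
    have h1 : 1 < δ * (2 : ℝ) ^ k := by
      rw [div_lt_iff₀ hδ] at hk
      linarith
    have h2 : (2 : ℝ) ^ k ≤ (ℓ : ℝ) ^ k := by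
      apply pow_le_pow_left₀ (by norm_num)
      exact_mod_cast hℓ
    have h3 : (w : ℝ) * (ℓ : ℝ) ^ k ≤ n := by exact_mod_cast h
    have h4 : (0 : ℝ) ≤ w := Nat.cast_nonneg _
    calc (w : ℝ) ≤ w * (δ * (2 : ℝ) ^ k) := le_mul_of_one_le_right h4 h1.le
      _ ≤ w * (δ * (ℓ : ℝ) ^ k) :=
        mul_le_mul_of_nonneg_left (mul_le_mul_of_nonneg_left h2 hδ.le) h4
      _ = δ * (w * (ℓ : ℝ) ^ k) := by ring
      _ ≤ δ * n := mul_le_mul_of_nonneg_left h3 hδ.le
  obtain ⟨Bp, hBp⟩ := bigp F p ε hε k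
  have hBl : ∀ ℓ : ℕ, ∃ B : ℕ, ℓ.Prime → ℓ ≠ p → ∀ (Y : Type) [AddCommGroup Y] [Finite Y],
      ¬ p ∣ Nat.card Y → (∀ r, r.Prime → r ∣ Nat.card Y → r ∈ P) →
      ℓ ^ B ∣ Monoid.exponent (Multiplicative Y) → ∀ C : Submodule F (Y → Unit → F), Inv C →
      ε * Nat.card Y ≤ finrank F C →
      ∃ f ∈ C, f ≠ 0 ∧ Nat.card {x // f x ≠ 0} * ℓ ^ k ≤ Nat.card Y := by
    intro ℓ
    by_cases h : ℓ.Prime ∧ ℓ ≠ p
    · obtain ⟨B, hB⟩ := bigl F p ε hε k P ℓ h.1 h.2
      exact ⟨B, fun _ _ => hB⟩
    · exact ⟨0, fun h1 h2 => absurd ⟨h1, h2⟩ h⟩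
  choose Bl hBl using hBl
  let B : ℕ → ℕ := fun ℓ => max Bp (Bl ℓ)
  obtain ⟨e, he⟩ : ∃ e, e = ∏ r ∈ P.filter Nat.Prime, r ^ B r := ⟨_, rfl⟩
  have he0 : 0 < e := by
    rw [he]
    exact prod_pos (fun r hr => pow_pos (mem_filter.1 hr).2.pos _)
  obtain ⟨N, hN⟩ := mainX F e he0 Unit ε δ hε hδ
  refine ⟨N, ?_⟩
  intro ι _ q a hq hqP hcard C hC hdim
  by_cases hcase : ∀ i, a i ≤ B (q i)
  · apply hN ι q a hq ?_ hcard C hC hdim
    intro i
    rcases Nat.eq_zero_or_pos (a i) with h | h
    · rw [h, pow_zero]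
      exact one_dvd _
    · rw [he]
      have h1 : q i ∈ P.filter Nat.Prime := mem_filter.2 ⟨hqP i h, hq i⟩
      exact (pow_dvd_pow _ (hcase i)).trans
        (dvd_prod_of_mem (fun r => r ^ B r) h1)
  · push Not at hcase
    obtain ⟨i0, hi0⟩ := hcase
    have hfin : Finite (Gr q a) := fin_Gr q a hq
    let ψ := restr q a (fun i => q i ≠ p)
    have hψ : Function.Surjective ψ := restr_surj q a _
    have hker : ∃ k, Nat.card ψ.ker = p ^ k := ker_restr q a hq p
    have hq' : ∀ i : {i // q i ≠ p}, (q i.1).Prime := fun i => hq i.1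
    let Y := Gr (fun i : {i // q i ≠ p} => q i.1) (fun i => a i.1)
    have hfin' : Finite Y := fin_Gr _ _ hq'
    have hYc : Nat.card Y = ∏ i : {i // q i ≠ p}, q i.1 ^ a i.1 := card_Gr _ _
    have hYdvd : ∀ r, r.Prime → r ∣ Nat.card Y → ∃ i : {i // q i ≠ p}, r = q i.1 ∧ 1 ≤ a i.1 := by
      intro r hr hrY
      rw [hYc] at hrY
      obtain ⟨i, -, hi⟩ := (hr.prime.dvd_finsetProd_iff _).1 hrY
      refine ⟨i, (Nat.prime_dvd_prime_iff_eq hr (hq i.1)).1 (hr.dvd_of_dvd_pow hi), ?_⟩
      rcases Nat.eq_zero_or_pos (a i.1) with h | h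
      · rw [h, pow_zero] at hi
        exact absurd (Nat.dvd_one.1 hi) hr.one_lt.ne'
      · exact h
    have hpY : ¬ p ∣ Nat.card Y := by
      intro h
      obtain ⟨i, hi, -⟩ := hYdvd p hp h
      exact i.2 hi.symm
    by_cases hqi : q i0 = p
    · -- a large cyclic `p`-group
      let b := a i0
      have hb : Bp ≤ b := (le_max_left _ _).trans hi0.le
      have hbe : q i0 ^ a i0 = p ^ b := by rw [hqi]
      let u : ZMod (q i0 ^ a i0) ≃+* ZMod (p ^ b) := ZMod.ringEquivCongr hbe
      have hneb : NeZero (p ^ b) := ⟨pow_ne_zero _ hp.ne_zero⟩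
      let π : Gr q a →+ Y × ZMod (p ^ b) :=
        ψ.prod ((u : ZMod (q i0 ^ a i0) →+ ZMod (p ^ b)).comp
          (Pi.evalAddMonoidHom (fun i => ZMod (q i ^ a i)) i0))
      have hπ1 : ∀ x, π x = (ψ x, u (x i0)) := fun x => rfl
      have hπ : Function.Surjective π := by
        rintro ⟨y, z⟩
        obtain ⟨x, hx⟩ := hψ y
        refine ⟨Function.update x i0 (u.symm z), ?_⟩
        rw [hπ1]
        apply Prod.ext
        · show ψ (Function.update x i0 (u.symm z)) = y
          rw [← hx]
          funext i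
          show Function.update x i0 (u.symm z) i.1 = x i.1
          apply Function.update_of_ne
          intro h
          exact i.2 (by rw [h, hqi])
        · show u (Function.update x i0 (u.symm z) i0) = z
          rw [Function.update_self, RingEquiv.apply_symm_apply]
      have hkerπ : ∃ k, Nat.card π.ker = p ^ k := by
        obtain ⟨k, hk⟩ := hker
        have h1 : π.ker ≤ ψ.ker := by
          intro x hx
          rw [AddMonoidHom.mem_ker] at hx ⊢
          exact congrArg Prod.fst hx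
        have h2 := AddSubgroup.card_dvd_of_le h1
        rw [hk, Nat.dvd_prime_pow hp] at h2
        obtain ⟨k', -, hk'⟩ := h2
        exact ⟨k', hk'⟩
      have hdim' := quot_real π hπ hkerπ C hC ε hdim
      have hinv' := inv_pull π hπ C hC
      let Ψ : (Y × ZMod (p ^ b) → Unit → F) ≃ₗ[F] (Y → ZMod (p ^ b) → F) :=
        { toFun := fun f y z => f (y, z) ()
          map_add' := fun _ _ => rfl
          map_smul' := fun _ _ => rfl
          invFun := fun f w _ => f w.1 w.2
          left_inv := fun f => rfl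
          right_inv := fun f => rfl }
      let C' : Submodule F (Y → ZMod (p ^ b) → F) :=
        (pull π C).map (Ψ : (Y × ZMod (p ^ b) → Unit → F) →ₗ[F] (Y → ZMod (p ^ b) → F))
      have hrank : finrank F C' = finrank F (pull π C) := LinearEquiv.finrank_map_eq Ψ _
      obtain ⟨g, hg, hg0, hgw⟩ := hBp b hb Y hpY C' (by
          rintro y z _ ⟨f, hf, rfl⟩
          exact ⟨_, hinv' (y, z) f hf, rfl⟩) (by
          rw [hrank]
          rw [Nat.card_prod, Nat.card_zmod] at hdim'
          exact_mod_cast hdim')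
      obtain ⟨f, hf, hfg⟩ := hg
      refine ⟨fun x => f (π x), hf, ?_, ?_⟩
      · intro h
        apply hg0
        rw [← hfg]
        funext y z
        obtain ⟨x, hx⟩ := hπ (y, z)
        have h1 := congrFun (congrFun h x) ()
        rw [hx] at h1
        exact h1
      · apply hkℓ p hp.two_le
        have h1 : Nat.card {x // f (π x) ≠ 0} = Nat.card π.ker * Nat.card {w // f w ≠ 0} :=
          card_fiber π hπ (fun w => f w ≠ 0)
        have h2 : Nat.card {w // f w ≠ 0} = Nat.card {z : Y × ZMod (p ^ b) // g z.1 z.2 ≠ 0} := by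
          apply Nat.card_congr
          apply Equiv.subtypeEquivRight
          intro w
          rw [← hfg]
          show f w ≠ 0 ↔ f (w.1, w.2) () ≠ 0
          rw [not_iff_not]
          exact ⟨fun h => congrFun h (), fun h => funext (fun _ => h)⟩
        have h3 : Nat.card (Gr q a) = Nat.card π.ker * (Nat.card Y * p ^ b) := by
          rw [card_of_surj π hπ, Nat.card_prod, Nat.card_zmod]
        rw [h1, h2, h3, mul_assoc]
        exact Nat.mul_le_mul_left _ hgw
    · -- a large exponent prime to the characteristic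
      have hdim' := quot_real ψ hψ hker C hC ε hdim
      have hinv' := inv_pull ψ hψ C hC
      obtain ⟨g, hg, hg0, hgw⟩ := hBl (q i0) (hq i0) hqi Y hpY (by
          intro r hr hrY
          obtain ⟨i, hi, hai⟩ := hYdvd r hr hrY
          rw [hi]
          exact hqP i.1 hai) (by
          have h1 : q i0 ^ a i0 ∣ Monoid.exponent (Multiplicative Y) := by
            have h2 := Monoid.pow_exponent_eq_one (G := Multiplicative Y)
              (Multiplicative.ofAdd (Pi.single (⟨i0, hqi⟩ : {i // q i ≠ p}) 1 : Y))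
            have h3 : Monoid.exponent (Multiplicative Y) •
              (Pi.single (⟨i0, hqi⟩ : {i // q i ≠ p}) 1 : Y) = 0 :=
              congrArg Multiplicative.toAdd h2
            have h4 := congrFun h3 ⟨i0, hqi⟩
            rw [Pi.smul_apply, Pi.single_eq_same, Pi.zero_apply, nsmul_eq_mul, mul_one] at h4
            exact (ZMod.natCast_eq_zero_iff _ _).1 h4
          exact (pow_dvd_pow _ ((le_max_right _ _).trans hi0.le)).trans h1)
        (pull ψ C) hinv' hdim'
      refine ⟨fun x => g (ψ x), hg, ?_, ?_⟩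
      · intro h
        apply hg0
        funext y
        obtain ⟨x, rfl⟩ := hψ y
        exact congrFun h x
      · apply hkℓ (q i0) (hq i0).two_le
        have h1 : Nat.card {x // g (ψ x) ≠ 0} = Nat.card ψ.ker * Nat.card {w // g w ≠ 0} :=
          card_fiber ψ hψ (fun w => g w ≠ 0)
        have h3 : Nat.card (Gr q a) = Nat.card ψ.ker * Nat.card Y := card_of_surj ψ hψ
        rw [h1, h3, mul_assoc]
        exact Nat.mul_le_mul_left _ hgw

end Q123.AC
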