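import Mathlib
import Pool.Agent.Q123.AC.Base
import Pool.Agent.Q123.AC.Mod
import Pool.Agent.Q123.AC.Struct
import Pool.Agent.Q123.AC.Grp
import Pool.Agent.Q123.AC.Smooth

/-!
# Groups which are, modulo a normal `p`-subgroup, abelian of smooth order
-/

namespace Q123.AC

open Finset Module

theorem mainAS (F : Type) [Field F] [Finite F] (P : Finset ℕ) (ε δ : ℝ) (hε : 0 < ε)
    (hδ : 0 < δ) : ∃ N : ℕ, ∀ (A : Type) [AddCommGroup A] [Finite A],
      (∀ r, r.Prime → r ∣ Nat.card A → r ∈ P) → N ≤ Nat.card A →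
      ∀ C : Submodule F (A → Unit → F), Inv C → ε * Nat.card A ≤ finrank F C →
      ∃ f ∈ C, f ≠ 0 ∧ (Nat.card {x // f x ≠ 0} : ℝ) ≤ δ * Nat.card A := by
  classical
  obtain ⟨N, hN⟩ := mainXS F P ε δ hε hδ
  refine ⟨N, ?_⟩
  intro A _ _ hP hcard C hC hdim
  obtain ⟨p, hpF⟩ := CharP.exists F
  have hp : p.Prime := by
    rcases CharP.char_is_prime_or_zero F p with h | h
    · exact h
    · subst h
      have : CharZero F := CharP.charP_to_charZero F
      exact absurd ‹Finite F› (by
        rw [not_finite_iff_infinite]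
        exact Infinite.of_injective (fun n : ℕ => (n : F)) Nat.cast_injective)
  have hpf : Fact p.Prime := ⟨hp⟩
  obtain ⟨ι, _, q, hq, a, ⟨Θ0⟩⟩ := AddCommGroup.equiv_directSum_zmod_of_finite A
  let Θ : A ≃+ Gr q a := Θ0.trans (DirectSum.addEquivProd (fun i => ZMod (q i ^ a i)))
  have hcA : Nat.card A = Nat.card (Gr q a) := Nat.card_congr Θ.toEquiv
  have hqP : ∀ i, 1 ≤ a i → q i ∈ P := by
    intro i hi
    apply hP _ (hq i)
    rw [hcA, card_Gr]
    exact (dvd_pow_self _ (by omega)).trans (dvd_prod_of_mem _ (mem_univ i))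
  have hsurj : Function.Surjective (Θ : A →+ Gr q a) := Θ.surjective
  have hker : ∃ k, Nat.card ((Θ : A →+ Gr q a)).ker = p ^ k := by
    refine ⟨0, ?_⟩
    have : (Θ : A →+ Gr q a).ker = ⊥ := by
      rw [AddMonoidHom.ker_eq_bot_iff]
      exact Θ.injective
    rw [this, pow_zero]
    simp
  have hdim' := quot_real (Θ : A →+ Gr q a) hsurj hker C hC ε hdim
  rw [hcA] at hcard
  obtain ⟨g, hg, hg0, hgw⟩ := hN ι q a hq hqP hcard (pull (Θ : A →+ Gr q a) C)
    (inv_pull _ hsurj C hC) hdim'
  refine ⟨fun x => g (Θ x), hg, ?_, ?_⟩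
  · intro h
    apply hg0
    funext y
    obtain ⟨x, rfl⟩ := Θ.surjective y
    exact congrFun h x
  · rw [hcA]
    refine le_trans (le_of_eq ?_) hgw
    congr 1
    exact Nat.card_congr (Θ.toEquiv.subtypeEquiv (fun x => Iff.rfl))

theorem mainGS (F : Type) [Field F] [Finite F] (P : Finset ℕ) (ε δ : ℝ) (hε : 0 < ε)
    (hδ : 0 < δ) : ∃ N : ℕ, ∀ (G : Type) [Group G] [Finite G]
      (H : Subgroup G) [H.Normal], IsPGroup (ringChar F) H → (∀ a b : G, a * b * a⁻¹ * b⁻¹ ∈ H) →
      (∀ r : ℕ, r.Prime → r ∣ H.index → r ∈ P) → N ≤ H.index →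
      ∀ C : Submodule F (G → F), (∀ g : G, ∀ f ∈ C, (fun x => f (g * x)) ∈ C) →
      ε * Nat.card G ≤ finrank F C →
      ∃ f ∈ C, f ≠ 0 ∧ (Nat.card {x // f x ≠ 0} : ℝ) ≤ δ * Nat.card G := by
  classical
  obtain ⟨N, hN⟩ := mainAS F P ε δ hε hδ
  refine ⟨N, ?_⟩
  intro G _ _ H _ hH hcomm hP hcard C hC hdim
  have hp : (ringChar F).Prime := by
    rcases CharP.char_is_prime_or_zero F (ringChar F) with h | h
    · exact h
    · have : CharZero F := by
        have h1 := ringChar.charP F
        rw [h] at h1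
        exact CharP.charP_to_charZero F
      exact absurd ‹Finite F› (by
        rw [not_finite_iff_infinite]
        exact Infinite.of_injective (fun n : ℕ => (n : F)) Nat.cast_injective)
  have hpf : Fact (ringChar F).Prime := ⟨hp⟩
  let Q := G ⧸ H
  let _inst : CommGroup Q :=
    { (inferInstance : Group (G ⧸ H)) with
      mul_comm := by
        intro x y
        induction x using QuotientGroup.induction_on with
        | H a =>
          induction y using QuotientGroup.induction_on with
          | H b =>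
            have h1 := hcomm b⁻¹ a⁻¹
            have h2 : ((a * b : G) : G ⧸ H) = ((b * a : G) : G ⧸ H) := by
              rw [QuotientGroup.eq]
              have h3 : (a * b)⁻¹ * (b * a) = b⁻¹ * a⁻¹ * b⁻¹⁻¹ * a⁻¹⁻¹ := by group
              rw [h3]
              exact h1
            exact h2 }
  let π : G →* Q := QuotientGroup.mk' H
  have hπ : Function.Surjective π := QuotientGroup.mk'_surjective H
  have hkerπ : π.ker = H := QuotientGroup.ker_mk' H
  -- the code with values in functions on a point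
  let Ψ : (G → F) ≃ₗ[F] (G → Unit → F) :=
    { toFun := fun f x _ => f x
      map_add' := fun _ _ => rfl
      map_smul' := fun _ _ => rfl
      invFun := fun f x => f x ()
      left_inv := fun f => rfl
      right_inv := fun f => rfl }
  let C1 : Submodule F (G → Unit → F) := C.map (Ψ : (G → F) →ₗ[F] (G → Unit → F))
  have hrank : finrank F C1 = finrank F C := LinearEquiv.finrank_map_eq Ψ C
  have hC1 : ∀ g : G, ∀ f ∈ C1, (fun x => f (g * x)) ∈ C1 := by
    rintro g _ ⟨f, hf, rfl⟩
    exact ⟨_, hC g f hf, rfl⟩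
  have hdimQ : ε * Nat.card Q ≤ finrank F (pull π C1) := by
    have h1 := quotG π hπ (by rw [hkerπ]; exact hH) C1 hC1
    rw [hkerπ, hrank] at h1
    have h2 : Nat.card G = Nat.card H * Nat.card Q := (Subgroup.card_mul_index H).symm
    have h3 : (0 : ℝ) < Nat.card H := by exact_mod_cast Nat.card_pos
    have h4 : (finrank F C : ℝ) ≤ Nat.card H * finrank F (pull π C1) := by exact_mod_cast h1
    rw [h2, Nat.cast_mul] at hdim
    have h5 : (Nat.card H : ℝ) * (ε * Nat.card Q) ≤ Nat.card H * finrank F (pull π C1) := by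
      calc (Nat.card H : ℝ) * (ε * Nat.card Q) = ε * (Nat.card H * Nat.card Q) := by ring
        _ ≤ _ := hdim.trans h4
    exact le_of_mul_le_mul_left h5 h3
  obtain ⟨g, hg, hg0, hgw⟩ := hN (Additive Q) hP hcard (pull π C1) (by
      intro x f hf
      obtain ⟨y, hy⟩ := hπ (Additive.toMul x)
      have h2 : (fun x_1 : G => f (π (y * x_1))) ∈ C1 := hC1 y _ hf
      have h3 : (fun x_1 : G => f (π (y * x_1))) = fun z => f (π y * π z) := by
        funext z
        rw [map_mul]
      rw [h3, hy] at h2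
      exact h2) hdimQ
  obtain ⟨f, hf, hfg⟩ := hg
  have hfg' : ∀ x, f x = g (π x) () := by
    intro x
    have := congrFun (congrFun hfg x) ()
    exact this
  refine ⟨f, hf, ?_, ?_⟩
  · intro h
    apply hg0
    funext y u
    obtain ⟨x, hx⟩ := hπ (Additive.toMul y)
    have h1 := hfg' x
    rw [h, hx] at h1
    exact h1.symm
  · have h2 : Nat.card G = Nat.card H * Nat.card Q := (Subgroup.card_mul_index H).symm
    have h3 : Nat.card {x : G // f x ≠ 0} = Nat.card H * Nat.card {y : Q // g y ≠ 0} := by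
      let τ : G ≃ H × Q := (Subgroup.groupEquivQuotientProdSubgroup (s := H)).trans
        (Equiv.prodComm _ _)
      have hτ : ∀ x, (τ x).2 = π x := by
        intro x
        rfl
      have e1 : {x : G // f x ≠ 0} ≃ {z : H × Q // g z.2 ≠ 0} :=
        τ.subtypeEquiv (fun x => by
          rw [hτ, hfg' x, not_iff_not]
          exact ⟨fun h => funext (fun _ => h), fun h => congrFun h ()⟩)
      have e2 : {z : H × Q // g z.2 ≠ 0} ≃ H × {y : Q // g y ≠ 0} :=
        { toFun := fun z => (z.1.1, ⟨z.1.2, z.2⟩)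
          invFun := fun z => ⟨(z.1, z.2.1), z.2.2⟩
          left_inv := fun z => rfl
          right_inv := fun z => rfl }
      rw [Nat.card_congr (e1.trans e2), Nat.card_prod]
    rw [h3, h2]
    push_cast
    have h4 : (0 : ℝ) ≤ Nat.card H := Nat.cast_nonneg _
    calc (Nat.card H : ℝ) * Nat.card {y : Q // g y ≠ 0} ≤
        Nat.card H * (δ * Nat.card Q) := mul_le_mul_of_nonneg_left hgw h4
      _ = δ * (Nat.card H * Nat.card Q) := by ring

end Q123.AC
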